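import Mathlib

/-! Three lemmas of commutative algebra: a Bezoutian, the transition determinant, and lifting
along a one-parameter family. -/

open TensorProduct

namespace Pool.Agent.Lib.JC99

/-- the Bezoutian of `F`, `G` paired with a functional -/
theorem bz {B A : Type*} [CommRing B] [CommRing A] [Algebra B A] (J : Ideal A)
    (π : A →ₗ[B] B) (hπ : ∀ p ∈ J, π p = 0) {x y : A} (hgen : Algebra.adjoin B {x, y} = ⊤)
    (l : B) {F₁ F₂ F₃ G₁ G₂ G₃ F G : A} (eF : F = x * F₁ + y * F₂ + algebraMap B A l * F₃)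
    (eG : G = x * G₁ + y * G₂ + algebraMap B A l * G₃) (hF : F ∈ J) (hG : G ∈ J) :
    ∃ g : A, (∀ p ∈ J, ∃ α β, g * p = α * F + β * G) ∧
      ∀ (s : A) (n : ℕ), (∀ t, l ^ n ∣ π (s * t)) → (∀ t, l ^ (n + 1) ∣ π (s * x * t)) →
        (∀ t, l ^ (n + 1) ∣ π (s * y * t)) → ∃ α β γ, s * g =
          algebraMap B A (π s) * (F₁ * G₂ - F₂ * G₁) + α * F + β * G +
            γ * algebraMap B A l ^ (n + 1) := by
  let T := A ⊗[B] A
  let j : A →ₐ[B] T := Algebra.TensorProduct.includeLeft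
  let κ : A →ₐ[B] T := Algebra.TensorProduct.includeRight
  let L : T →ₗ[A] A := AlgebraTensorModule.lift
    (LinearMap.toSpanSingleton A _ ((Algebra.linearMap B A).comp π))
  have hL (s : A) (t : T) : L (j s * t) = s * L t := by
    rw [← smul_eq_mul s, ← map_smul]
    exact congrArg L (Algebra.smul_def s t).symm
  have hLt (a b : A) : L (a ⊗ₜ b) = a * algebraMap B A (π b) := by
    simp [L, T]
  have hLκ (s : A) : L (κ s) = algebraMap B A (π s) := by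
    have := hLt 1 s
    rwa [one_mul] at this
  have hdiv (s : A) (c : B) (h : ∀ t, c ∣ π (s * t)) (t : T) :
      algebraMap B A c ∣ L (κ s * t) := by
    induction t using TensorProduct.induction_on with
    | zero => rw [mul_zero, map_zero]; exact dvd_zero _
    | tmul a b =>
      have e : κ s * (a ⊗ₜ[B] b : T) = a ⊗ₜ[B] (s * b) := by
        change ((1 : A) ⊗ₜ[B] s) * (a ⊗ₜ[B] b) = _
        rw [Algebra.TensorProduct.tmul_mul_tmul, one_mul]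
      rw [e, hLt]
      exact Dvd.dvd.mul_left (map_dvd _ (h b)) a
    | add a b ha hb => rw [mul_add, map_add]; exact dvd_add ha hb
  have hz (p : A) (hp : p ∈ J) (t : T) : L (κ p * t) = 0 := by
    have := hdiv p 0 (fun t ↦ by rw [hπ _ (J.mul_mem_right t hp)]) t
    rwa [map_zero, zero_dvd_iff] at this
  have hjκ : κ (algebraMap B A l) = j (algebraMap B A l) := by
    rw [AlgHom.commutes, AlgHom.commutes]
  have dec (s : A) : ∃ a : T × T, j s - κ s = (j x - κ x) * a.1 + (j y - κ y) * a.2 := by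
    induction (hgen ▸ Algebra.mem_top : s ∈ Algebra.adjoin B {x, y})
      using Algebra.adjoin_induction with
    | mem s hs =>
      rcases hs with rfl | rfl
      exacts [⟨(1, 0), by simp⟩, ⟨(0, 1), by simp⟩]
    | algebraMap b => exact ⟨0, by simp⟩
    | add s t _ _ hs ht =>
      obtain ⟨a, ha⟩ := hs
      obtain ⟨b, hb⟩ := ht
      exact ⟨a + b, by simp only [map_add, Prod.fst_add, Prod.snd_add]; linear_combination ha + hb⟩
    | mul s t _ _ hs ht =>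
      obtain ⟨a, ha⟩ := hs
      obtain ⟨b, hb⟩ := ht
      exact ⟨(a.1 * j t + κ s * b.1, a.2 * j t + κ s * b.2), by
        simp only [map_mul]; linear_combination j t * ha + κ s * hb⟩
  choose d hd using dec
  obtain ⟨m, hm⟩ : ∃ m, m = algebraMap B A l := ⟨_, rfl⟩
  rw [← hm] at eF eG hjκ ⊢
  have key (H₁ H₂ H₃ : A) : ∃ u₁ u₂ u₃ v₁ v₂ v₃ : T,
      j (x * H₁ + y * H₂ + m * H₃) - κ (x * H₁ + y * H₂ + m * H₃) =
        (j x - κ x) * (j H₁ + κ x * u₁ + κ y * u₂ + j m * u₃) +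
        (j y - κ y) * (j H₂ + κ x * v₁ + κ y * v₂ + j m * v₃) :=
    ⟨(d H₁).1, (d H₂).1, (d H₃).1, (d H₁).2, (d H₂).2, (d H₃).2, by
      simp only [map_add, map_mul, hjκ]
      linear_combination κ x * hd H₁ + κ y * hd H₂ + j m * hd H₃⟩
  obtain ⟨a₁, a₂, a₃, b₁, b₂, b₃, kF⟩ := key F₁ F₂ F₃
  obtain ⟨c₁, c₂, c₃, e₁, e₂, e₃, kG⟩ := key G₁ G₂ G₃
  rw [← eF] at kF
  rw [← eG] at kG
  obtain ⟨P₁, hP₁⟩ : ∃ P, P = j F₁ + κ x * a₁ + κ y * a₂ + j m * a₃ := ⟨_, rfl⟩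
  obtain ⟨P₂, hP₂⟩ : ∃ P, P = j F₂ + κ x * b₁ + κ y * b₂ + j m * b₃ := ⟨_, rfl⟩
  obtain ⟨Q₁, hQ₁⟩ : ∃ P, P = j G₁ + κ x * c₁ + κ y * c₂ + j m * c₃ := ⟨_, rfl⟩
  obtain ⟨Q₂, hQ₂⟩ : ∃ P, P = j G₂ + κ x * e₁ + κ y * e₂ + j m * e₃ := ⟨_, rfl⟩
  rw [← hP₁, ← hP₂] at kF
  rw [← hQ₁, ← hQ₂] at kG
  have main (s : A) : ∃ α β, s * L (P₁ * Q₂ - P₂ * Q₁) =
      L (κ s * (P₁ * Q₂ - P₂ * Q₁)) + α * F + β * G := by
    have h : j s * (P₁ * Q₂ - P₂ * Q₁) = κ s * (P₁ * Q₂ - P₂ * Q₁) +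
        j F * ((d s).1 * Q₂ - (d s).2 * Q₁) + j G * ((d s).2 * P₁ - (d s).1 * P₂) -
        κ F * ((d s).1 * Q₂ - (d s).2 * Q₁) - κ G * ((d s).2 * P₁ - (d s).1 * P₂) := by
      linear_combination (P₁ * Q₂ - P₂ * Q₁) * hd s - ((d s).1 * Q₂ - (d s).2 * Q₁) * kF -
        ((d s).2 * P₁ - (d s).1 * P₂) * kG
    refine ⟨L ((d s).1 * Q₂ - (d s).2 * Q₁), L ((d s).2 * P₁ - (d s).1 * P₂), ?_⟩
    rw [← hL, h, map_sub, map_sub, map_add, map_add, hz F hF, hz G hG, hL, hL]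
    ring
  refine ⟨L (P₁ * Q₂ - P₂ * Q₁), fun p hp ↦ ?_, fun s n h0 h1 h2 ↦ ?_⟩
  · obtain ⟨α, β, h⟩ := main p
    exact ⟨α, β, by rw [mul_comm, h, hz p hp, zero_add]⟩
  · obtain ⟨α, β, h⟩ := main s
    obtain ⟨t₁, t₂, t₃, ht⟩ : ∃ t₁ t₂ t₃ : T, κ s * (P₁ * Q₂ - P₂ * Q₁) =
        j (F₁ * G₂ - F₂ * G₁) * κ s + κ (s * x) * t₁ + κ (s * y) * t₂ + j m * (κ s * t₃) :=
      ⟨a₁ * Q₂ + j F₁ * e₁ - b₁ * Q₁ - j F₂ * c₁, a₂ * Q₂ + j F₁ * e₂ - b₂ * Q₁ - j F₂ * c₂,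
        a₃ * Q₂ + j F₁ * e₃ - b₃ * Q₁ - j F₂ * c₃, by
        simp only [map_sub, map_mul]
        linear_combination κ s * Q₂ * hP₁ - κ s * Q₁ * hP₂ + κ s * j F₁ * hQ₂ - κ s * j F₂ * hQ₁⟩
    obtain ⟨γ₁, g₁⟩ := hdiv _ _ h1 t₁
    obtain ⟨γ₂, g₂⟩ := hdiv _ _ h2 t₂
    obtain ⟨γ₃, g₃⟩ := hdiv _ _ h0 t₃
    rw [map_pow, ← hm] at g₁ g₂ g₃
    refine ⟨α, β, γ₁ + γ₂ + γ₃, ?_⟩
    rw [h, ht, map_add, map_add, map_add, hL, hL, hLκ, g₁, g₂, g₃]
    ring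

/-- the transition determinant of two regular sequences is not in the smaller ideal -/
theorem wiebe {R : Type*} [CommRing R] {x y F₁ F₂ G₁ G₂ F G α β : R} (eF : F = x * F₁ + y * F₂)
    (eG : G = x * G₁ + y * G₂) (h1 : ∀ u, F * u = 0 → u = 0)
    (h2 : ∀ u v, u * G = v * F → F ∣ u) (h : F₁ * G₂ - F₂ * G₁ = α * F + β * G) :
    ∃ a b, 1 = x * a + y * b := by
  obtain ⟨a, ha⟩ := h2 (F₁ - y * β) (y * α + G₁) (by linear_combination y * h + F₁ * eG - G₁ * eF)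
  obtain ⟨b, hb⟩ := h2 (x * β + F₂) (G₂ - x * α)
    (by linear_combination (-x) * h + F₂ * eG - G₂ * eF)
  refine ⟨a, b, ?_⟩
  have := h1 (1 - (x * a + y * b)) (by linear_combination eF + x * ha + y * hb)
  linear_combination this

/-- relations on a general member of a family lift to the family -/
theorem fam {k R ι : Type*} [CommRing R] [IsNoetherianRing R] [Finite ι] (τ : k → R)
    (hτ : ∀ a b, a ≠ b → IsUnit (τ a - τ b)) (p : ι → R) (I : ι → Ideal R) :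
    {a : k | ¬ ∀ v : R, (∀ i, ∃ u, v * p i - τ a * u ∈ I i) →
      ∃ z, ∀ i, (v - τ a * z) * p i ∈ I i}.Finite := by
  let μ : R →ₗ[R] (Π i, R ⧸ I i) :=
    LinearMap.pi fun i ↦ (I i).mkQ.comp (LinearMap.mulRight R (p i))
  have hμ (v : R) (i : ι) : μ v i = Ideal.Quotient.mk (I i) (v * p i) := rfl
  let M := (Π i, R ⧸ I i) ⧸ LinearMap.range μ
  have hfin := (associatedPrimes.finite R M).biUnion (t := fun Q ↦ {a : k | τ a ∈ Q}) fun Q hQ ↦
    Set.Subsingleton.finite fun a ha b hb ↦ by_contra fun hab ↦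
      hQ.isPrime.ne_top (Q.eq_top_of_isUnit_mem (Q.sub_mem ha hb) (hτ a b hab))
  refine hfin.subset fun a ha ↦ by_contra fun hn ↦ ha fun v hv ↦ ?_
  choose u hu using hv
  have h1 : τ a • (fun i ↦ Ideal.Quotient.mk (I i) (u i)) = μ v := by
    funext i
    rw [hμ, Ideal.Quotient.eq.2 (hu i)]
    rfl
  have h2 : (Submodule.Quotient.mk (fun i ↦ Ideal.Quotient.mk (I i) (u i)) : M) = 0 := by
    by_contra hc
    have h3 : τ a ∈ ⋃ Q ∈ associatedPrimes R M, (Q : Set R) := by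
      rw [biUnion_associatedPrimes_eq_zero_divisors]
      refine ⟨_, hc, ?_⟩
      rw [← Submodule.Quotient.mk_smul, h1, Submodule.Quotient.mk_eq_zero]
      exact ⟨v, rfl⟩
    obtain ⟨Q, hQ, h4⟩ := Set.mem_iUnion₂.1 h3
    exact hn (Set.mem_biUnion hQ h4)
  obtain ⟨z, hz⟩ := (Submodule.Quotient.mk_eq_zero _).1 h2
  refine ⟨z, fun i ↦ ?_⟩
  have h5 := Ideal.Quotient.eq.1 ((hμ z i).symm.trans (congrFun hz i))
  have h6 := (I i).sub_mem (hu i) ((I i).mul_mem_left (τ a) h5)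
  rwa [show v * p i - τ a * u i - τ a * (z * p i - u i) = (v - τ a * z) * p i by ring] at h6

end Pool.Agent.Lib.JC99
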