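import Pool.Agent.Lib.JC99.Plane

/-! The family of planes, the poles of the multiplier, and the joint cone. -/

open MvPolynomial Module Pool.Agent.Lib.MP_d54a3f_ag

namespace Pool.Agent.Lib.JC99

universe u

variable {k : Type u} [Field k]

/-- the pencil of planes -/
noncomputable def WW (k : Type u) [Field k] : Polynomial (S k) :=
  Polynomial.C (X 1) + Polynomial.X * Polynomial.C (X 2)

theorem eval_WW (a : k) : (WW k).eval (C a) = (fr a).w := by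
  simp only [WW, fr_w, Polynomial.eval_add, Polynomial.eval_mul, Polynomial.eval_C,
    Polynomial.eval_X]

/-- the multiplier relation in the family -/
def Fam (P : Ideal (S k)) (F G : S k) (v : Polynomial (S k)) : Prop :=
  ∀ p ∈ P, ∃ α r γ, v * Polynomial.C p = α * Polynomial.C F + r * Polynomial.C G + γ * WW k

theorem lift {ι : Type} [Finite ι] (P : ι → Ideal (S k)) (F : ι → S k) (G : S k) :
    {a : k | ¬ ∀ G' : S k, (∀ i, ∀ p ∈ P i, G' * p ∈ I3 (F i) G (fr a).w) →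
      ∃ v : Polynomial (S k), v.eval (C a) = G' ∧ ∀ i, Fam (P i) (F i) G v}.Finite := by
  choose s hs using fun i ↦ (IsNoetherian.noetherian (P i) : (P i).FG)
  refine (fam (ι := Σ i, s i) (fun a : k ↦ Polynomial.X - Polynomial.C (C a : S k))
    (fun a b h ↦ ?_) (fun x ↦ Polynomial.C (x.2 : S k)) fun x ↦
      (Ideal.span {Polynomial.C (F x.1)} ⊔ Ideal.span {Polynomial.C G}) ⊔
        Ideal.span {WW k}).subset fun a ha h ↦ ha fun G' hG' ↦ ?_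
  · rw [sub_sub_sub_cancel_left, ← map_sub, ← map_sub]
    exact ((IsUnit.mk0 _ (sub_ne_zero.2 h.symm)).map C).map _
  · obtain ⟨z, hz⟩ := h (Polynomial.C G') fun x ↦ by
      obtain ⟨α, β, γ, e⟩ := mem3.1 (hG' x.1 x.2 (hs x.1 ▸ Submodule.subset_span x.2.2))
      refine ⟨-(Polynomial.C γ * Polynomial.C (X 2)),
        mem3'.2 ⟨Polynomial.C α, Polynomial.C β, Polynomial.C γ, ?_⟩⟩
      rw [← map_mul, e, fr_w, WW]
      simp only [map_add, map_mul]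
      ring
    refine ⟨Polynomial.C G' - (Polynomial.X - Polynomial.C (C a)) * z, by simp, fun i p hp ↦ ?_⟩
    refine mem3'.1 ?_
    rw [← hs i] at hp
    induction hp using Submodule.span_induction with
    | mem x hx => exact hz ⟨i, x, hx⟩
    | zero => simp
    | add x y _ _ hx hy => rw [map_add, mul_add]; exact Ideal.add_mem _ hx hy
    | smul c x _ hx => rw [smul_eq_mul, map_mul, mul_left_comm]; exact Ideal.mul_mem_left _ _ hx

theorem ev_rel {F G p : S k} {v α r γ : Polynomial (S k)}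
    (h : v * Polynomial.C p = α * Polynomial.C F + r * Polynomial.C G + γ * WW k) (b : k) :
    p * v.eval (C b) - G * r.eval (C b) ∈ Ideal.span {F} ⊔ Ideal.span {(fr b).w} := by
  have := congrArg (Polynomial.eval (C b)) h
  simp only [Polynomial.eval_add, Polynomial.eval_mul, Polynomial.eval_C, eval_WW] at this
  exact mem2.2 ⟨α.eval (C b), γ.eval (C b), by linear_combination this⟩

theorem Fam.rel {P : Ideal (S k)} (hP : IsHom P) {F G : S k} {f g : ℕ} (hF : F.IsHomogeneous f)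
    (hG : G.IsHomogeneous g) {v : Polynomial (S k)} (h : Fam P F G v) (b : k) (d : ℕ) :
    ∀ p ∈ P, homogeneousComponent d (v.eval (C b)) * p ∈ I3 F G (fr b).w := by
  refine col_comp (I3_hom hF hG (fr b).w_hom) hP (fun p hp ↦ ?_) d
  obtain ⟨α, r, γ, e⟩ := h p hp
  obtain ⟨x, y, e'⟩ := mem2.1 (ev_rel e b)
  exact mem3.2 ⟨x, r.eval (C b), y, by linear_combination e'⟩

theorem star (r : Polynomial (S k)) (m : ℕ) : ∃ (t : S k) (N : ℕ), t.IsHomogeneous (m + N) ∧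
    ∀ b : k, (fr b).w ∣ t - X 2 ^ N * homogeneousComponent m (r.eval (C b)) := by
  refine ⟨∑ j ∈ Finset.range (r.natDegree + 1), homogeneousComponent m (r.coeff j) *
    ((-X 1) ^ j * X 2 ^ (r.natDegree - j)), r.natDegree, ?_, fun b ↦ ?_⟩
  · refine IsHomogeneous.sum _ _ _ fun j hj ↦ (homogeneousComponent_isHomogeneous _ _).mul ?_
    have := ((isHomogeneous_X k (1 : Fin 4)).neg.pow j).mul (X2_pow (r.natDegree - j))
    rwa [one_mul, Nat.add_sub_cancel' (Nat.lt_succ_iff.1 (Finset.mem_range.1 hj))] at this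
  · rw [Polynomial.eval_eq_sum_range, map_sum, Finset.mul_sum, ← Finset.sum_sub_distrib]
    refine Finset.dvd_sum fun j hj ↦ ?_
    obtain ⟨n, hn⟩ := Nat.exists_eq_add_of_le (Nat.lt_succ_iff.1 (Finset.mem_range.1 hj))
    obtain ⟨c, hc⟩ := sub_dvd_pow_sub_pow (-X 1 : S k) (C b * X 2) j
    rw [← map_pow, mul_comm (r.coeff j), homogeneousComponent_C_mul, hn, Nat.add_sub_cancel_left,
      map_pow]
    exact ⟨-(homogeneousComponent m (r.coeff j) * X 2 ^ n * c), by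
      rw [fr_w]
      linear_combination (homogeneousComponent m (r.coeff j) * X 2 ^ n) * hc⟩

theorem pole {P : Ideal (S k)} (hP : IsIntACM P) {F G : S k} {f d : ℕ} (hF : F.IsHomogeneous f)
    (hG : G.IsHomogeneous (d + 1)) (m : F ∈ P) (g : G ∈ P) (hPL : PL F G) {v : Polynomial (S k)}
    (hv : Fam P F G v) {a : k} (ha : (Ideal.span {F} ⊔ Ideal.span {(fr a).w}).IsPrime)
    (h0 : homogeneousComponent d (v.eval (C a)) ∉ Ideal.span {F} ⊔ Ideal.span {(fr a).w}) :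
    {b : k | ¬ ∃ p ∈ P, ∃ r, homogeneousComponent d (v.eval (C b)) * p - G * r ∈
      Ideal.span {F} ⊔ Ideal.span {(fr b).w} ∧
      Prim ((P ⊔ Ideal.span {r}) ⊔ Ideal.span {(fr b).w})}.Finite := by
  classical
  have hm := hP.2.hom.le_mm hP.1.ne_top
  have hex : ∃ n, ∃ p ∈ P, p.IsHomogeneous n ∧ p ∉ Ideal.span {F} ⊔ Ideal.span {(fr a).w} :=
    ⟨_, G, g, hG, hPL.notw (hm m) (hm g) a⟩
  obtain ⟨p, hp, hpn, hp0⟩ := Nat.find_spec hex
  obtain ⟨n, hn⟩ : ∃ n, Nat.find hex = n + 1 := Nat.exists_eq_succ_of_ne_zero fun e ↦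
    hp0 (hom_zero_mm (e ▸ hpn) (hm hp) ▸ zero_mem _)
  rw [hn] at hpn
  obtain ⟨α, r, γ, e⟩ := hv p hp
  obtain ⟨t, N, ht, hb⟩ := star r n
  have rel (b : k) : homogeneousComponent d (v.eval (C b)) * p -
      G * homogeneousComponent n (r.eval (C b)) ∈ Ideal.span {F} ⊔ Ideal.span {(fr b).w} := by
    have := (isHom_span1 hF).sup (isHom_span1 (fr b).w_hom) _ (ev_rel e b) (n + 1 + d)
    rwa [map_sub, comp_mul hpn, show n + 1 + d = d + 1 + n by omega, comp_mul hG,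
      mul_comm p] at this
  have htP : t ∉ P := fun h ↦ by
    obtain ⟨c, hc⟩ := hb a
    obtain ⟨u, hu⟩ := mem_sup_span.1 ((hPL.regP hP m g a).pow N
      (homogeneousComponent n (r.eval (C a))) (mem_sup_span.2 ⟨-c, by
        rwa [show X 2 ^ N * homogeneousComponent n (r.eval (C a)) - (fr a).w * -c = t by
          linear_combination -hc]⟩))
    have h1 := hP.2.hom _ hu n
    have h2 := not_exists.1 (Nat.find_min hex (m := n) (by omega))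
      (homogeneousComponent n (homogeneousComponent n (r.eval (C a)) - (fr a).w * u))
    rw [not_and, not_and, not_not] at h2
    have h3 := h2 h1 (homogeneousComponent_isHomogeneous _ _)
    rw [map_sub, comp_self (homogeneousComponent_isHomogeneous _ _)] at h3
    have h4 := Ideal.add_mem _ h3 (Ideal.mem_sup_right (isHom_span1 (fr a).w_hom _
      (Ideal.mul_mem_right u _ (Ideal.mem_span_singleton_self _)) n))
    rw [sub_add_cancel] at h4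
    have h5 := Ideal.add_mem _ (rel a) (Ideal.mul_mem_left _ G h4)
    rw [sub_add_cancel] at h5
    exact (ha.mem_or_mem h5).elim h0 hp0
  refine (prim_fin (hP.2.hom.sup (isHom_span1 ht)) ?_ hPL (Ideal.mem_sup_left m)
    (Ideal.mem_sup_left g)).subset fun b h h' ↦ h ⟨p, hp, _, rel b, h'.mono ?_⟩
  · rintro ⟨A, B, C, hA, hB, hC, h0, h1, h2⟩
    exact hP.2.ch3 ⟨P, A, B, C, hP.1, hA, hB, hC, le_rfl, lt_of_le_of_ne (le_sup_left.trans h0)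
      fun z ↦ htP (z ▸ h0 (mem_sup_span_self _ _)), h1, h2⟩
  · refine sup_le (sup_le (le_sup_left.trans le_sup_left) ?_) le_sup_right
    obtain ⟨c, hc⟩ := hb b
    rw [Ideal.span_singleton_le_iff_mem]
    refine mem_sup_span.2 ⟨c, mem_sup_span.2 ⟨X 2 ^ N, ?_⟩⟩
    rw [show t - (fr b).w * c - homogeneousComponent n (r.eval (C b)) * X 2 ^ N = 0 by
      linear_combination hc]
    exact zero_mem _

theorem cone2 {φ : Fr k} {P : Ideal (S k)} (hP : IsIntACM P) (hw : φ.w ∉ P) {F G G' : S k}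
    {f d : ℕ} (hF : F.IsHomogeneous f) (hG : G.IsHomogeneous (d + 1)) (hG' : G'.IsHomogeneous d)
    (m : F ∈ P) (pr : Prime (φ.pw F)) (g0 : G ∉ Ideal.span {F} ⊔ Ideal.span {φ.w})
    (rel : ∀ p ∈ P, G' * p ∈ I3 F G φ.w)
    (pole : ∃ p ∈ P, ∃ r, G' * p - G * r ∈ Ideal.span {F} ⊔ Ideal.span {φ.w} ∧
      Prim ((P ⊔ Ideal.span {r}) ⊔ Ideal.span {φ.w})) :
    ∃ Q, IsIntACM Q ∧ φ.w ∉ Q ∧ Q ⊔ Ideal.span {φ.w} = P ⊔ Ideal.span {φ.w} ∧
      ∀ q r, G' * q - G * r ∈ Ideal.span {F} ⊔ Ideal.span {φ.w} → φ.pw q + φ.w * φ.pw r ∈ Q := by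
  have h1 := (Ideal.span_singleton_prime pr.ne_zero).2 pr
  have h2 : (Ideal.span {F} ⊔ Ideal.span {φ.w}).IsPrime :=
    φ.comap_pw F ▸ Ideal.comap_isPrime _ _ (H := h1)
  obtain ⟨K, _, _, c, hk⟩ := exists_cls h2
  obtain ⟨p0, hp0, r0, hr0, hprim⟩ := pole
  have hG0 : c G ≠ 0 := fun e ↦ g0 ((hk _).1 e)
  have conv {q r : S k} (e : G' * q - G * r ∈ Ideal.span {F} ⊔ Ideal.span {φ.w}) :
      c r = c G' / c G * c q := by
    have h2 := (hk _).2 e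
    rw [map_sub, map_mul, map_mul] at h2
    field_simp
    linear_combination -h2
  have hθ : c G' / c G ≠ 0 := fun e ↦ by
    have h3 := (hk _).1 (show c r0 = 0 by rw [conv hr0, e, zero_mul])
    exact (hP.sat hw).not_prim (hP.sec_ne_top φ.w_hom) (hprim.mono (sup_le (sup_le le_sup_left
      ((Ideal.span_singleton_le_iff_mem _).2
        (sup_le_sup_right ((Ideal.span_singleton_le_iff_mem _).2 m) _ h3))) le_sup_right))
  obtain ⟨a, b, e⟩ := cone hP hw m hk pr.ne_zero h1 hθ (fun p n hp hpn ↦ by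
    obtain ⟨r, h3, h4⟩ := mem_sup_span_hom ((isHom_span1 hF).sup (isHom_span1 φ.w_hom)) hG
      ((show d + (n + 1) = d + 1 + n by omega) ▸ hG'.mul hpn)
      (sup_right_comm (Ideal.span {F}) _ _ ▸ rel p hp)
    exact ⟨r, h3, conv h4⟩) ⟨p0, hp0, r0, conv hr0, hprim⟩
  refine ⟨_, a, b, e, fun q r h ↦ ?_⟩
  have z := (hk _).2 (mem_sup_span_self _ _)
  rw [RingHom.mem_ker, map_add, map_mul, chi_pw _ z, chi_pw _ z, chi_w _ z, conv h, neg_mul,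
    inv_mul_cancel_left₀ hθ, add_neg_cancel]

theorem sec_rel {P : Ideal (S k)} {F G G' w : S k} (rel : ∀ p ∈ P, G' * p ∈ I3 F G w) {q : S k}
    (hq : q ∈ P ⊔ Ideal.span {w}) : ∃ r α β, G' * q - G * r = α * F + β * w := by
  obtain ⟨s, hs⟩ := mem_sup_span.1 hq
  obtain ⟨α, r, γ, e⟩ := mem3.1 (rel _ hs)
  exact ⟨r, α, γ + G' * s, by linear_combination e⟩

theorem core [Infinite k] {P₁ P₂ : Ideal (S k)} (h₁ : IsIntACM P₁) (h₂ : IsIntACM P₂)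
    (hR : Realizes P₁ P₂) {F₁ F₂ G : S k} {f₁ f₂ e d : ℕ} (hF₁ : F₁.IsHomogeneous f₁)
    (hF₂ : F₂.IsHomogeneous f₂) (hG : G.IsHomogeneous (d + 1)) (he : f₁ + f₂ = e + 2)
    (m₁ : F₁ ∈ P₁) (m₂ : F₂ ∈ P₂) (g₁ : G ∈ P₁) (g₂ : G ∈ P₂) (l₁ : PL F₁ (G * F₂))
    (l₂ : PL F₂ (G * F₁)) (c : ¬ Ch2 (I3 F₁ F₂ G))
    (b₁ : {a : k | ¬ Prime ((fr a).pw F₁)}.Finite) (b₂ : {a : k | ¬ Prime ((fr a).pw F₂)}.Finite)
    (hQ : Qne P₁ P₂ e) : IsACM (P₁ ⊓ P₂) := by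
  have k₁ := l₁.of_mul
  have k₂ := l₂.of_mul
  have k₀ : PL F₁ F₂ := PL.of_mul (mul_comm G F₂ ▸ l₁)
  have gm := hom_mem_mm hG d.succ_ne_zero
  have n₁ := h₁.2.hom.le_mm h₁.1.ne_top m₁
  have n₂ := h₂.2.hom.le_mm h₂.1.ne_top m₂
  have w₁ := k₁.w_notin h₁ m₁ g₁
  have w₂ := k₂.w_notin h₂ m₂ g₂
  have b₃ := prim_fin (I3_hom hF₁ hF₂ hG) c k₀ (mem3.2 ⟨1, 0, 0, by ring⟩)
    (mem3.2 ⟨0, 1, 0, by ring⟩)
  have pm {a : k} (h : Prim (I3 F₁ F₂ G ⊔ Ideal.span {(fr a).w})) {I : Ideal (S k)} (x : F₁ ∈ I)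
      (y : F₂ ∈ I) (z : G ∈ I) (t : (fr a).w ∈ I) : Prim I := h.mono (I4_le x y z t)
  have pr {a : k} {F : S k} (h : Prime ((fr a).pw F)) :
      (Ideal.span {F} ⊔ Ideal.span {(fr a).w}).IsPrime := (fr a).comap_pw F ▸
    Ideal.comap_isPrime _ _ (H := (Ideal.span_singleton_prime h.ne_zero).2 h)
  obtain ⟨a, ha⟩ := ((b₁.union b₂).union (b₃.union (lift ![P₁, P₂] ![F₁, F₂] G))).exists_notMem
  simp only [Set.mem_union, Set.mem_ofPred_eq, not_or, not_not] at ha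
  obtain ⟨⟨a₁, a₂⟩, a₃, a₄⟩ := ha
  have s (P : Ideal (S k)) (x : S k) := mem_sup_span_self P x
  have L {P Q : Ideal (S k)} {x : S k} (h : x ∈ P) : x ∈ P ⊔ Q := Ideal.mem_sup_left h
  obtain ⟨G', hG', o₁, o₂, hJ⟩ := plane (h₁.2.hom.sup (isHom_span1 (fr a).w_hom))
    (h₂.2.hom.sup (isHom_span1 (fr a).w_hom)) (s _ _) (s _ _) (k₁.regP h₁ m₁ g₁ a)
    (k₂.regP h₂ m₂ g₂ a) hF₁ hF₂ hG he (L m₁) (L m₂) (L g₁) (L g₂)
    (pm a₃ (L (L m₁)) (s _ _) (L (L g₁)) (L (s _ _)))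
    (pm a₃ (s _ _) (L (L m₂)) (L (L g₂)) (L (s _ _)))
    (by rw [← sup_sup_distrib_right]; exact hQ _ (fr a).w_hom (w₁ a) (w₂ a))
    (k₁.symm.mul k₂.symm).symm
  have j₁ (p : S k) (hp : p ∈ P₁) : G' * p ∈ I3 F₁ G (fr a).w := by
    refine sat_reg (k₁.regl gm a).sat (pm a₃ (L (mem3.2 ⟨1, 0, 0, by ring⟩)) (s _ _)
      (L (mem3.2 ⟨0, 1, 0, by ring⟩)) (L (s _ _))) _ ?_
    obtain ⟨α, β, γ, e⟩ := mem3.1 (hJ (p * F₂)
      ⟨L (P₁.mul_mem_right _ hp), L (P₂.mul_mem_left _ m₂)⟩)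
    exact mem3.2 ⟨α * F₂, β, γ, by linear_combination e⟩
  have j₂ (p : S k) (hp : p ∈ P₂) : G' * p ∈ I3 F₂ G (fr a).w := by
    refine sat_reg (k₂.regl gm a).sat (pm a₃ (s _ _) (L (mem3.2 ⟨1, 0, 0, by ring⟩))
      (L (mem3.2 ⟨0, 1, 0, by ring⟩)) (L (s _ _))) _ ?_
    obtain ⟨α, β, γ, e⟩ := mem3.1 (hJ (p * F₁)
      ⟨L (P₁.mul_mem_left _ m₁), L (P₂.mul_mem_right _ hp)⟩)
    exact mem3.2 ⟨α * F₁, β, γ, by linear_combination e⟩
  obtain ⟨v, rfl, hv⟩ := a₄ G' (Fin.forall_fin_two.2 ⟨j₁, j₂⟩)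
  obtain ⟨v₁, v₂⟩ := Fin.forall_fin_two.1 hv
  obtain ⟨b, hb⟩ := (((b₁.union b₂).union b₃).union
    ((pole h₁ hF₁ hG m₁ g₁ k₁ v₁ (pr a₁) (by rwa [comp_self hG'])).union
      (pole h₂ hF₂ hG m₂ g₂ k₂ v₂ (pr a₂) (by rwa [comp_self hG'])))).exists_notMem
  simp only [Set.mem_union, Set.mem_ofPred_eq, not_or, not_not] at hb
  obtain ⟨⟨⟨c₁, c₂⟩, c₃⟩, c₄, c₅⟩ := hb
  have r₁ := Fam.rel h₁.2.hom hF₁ hG v₁ b d
  have r₂ := Fam.rel h₂.2.hom hF₂ hG v₂ b d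
  have hd := homogeneousComponent_isHomogeneous d (v.eval (C b))
  obtain ⟨Q₁, x₁, y₁, z₁, t₁⟩ := cone2 h₁ (w₁ b) hF₁ hG hd m₁ c₁ (k₁.notw n₁ gm b) r₁ c₄
  obtain ⟨Q₂, x₂, y₂, z₂, t₂⟩ := cone2 h₂ (w₂ b) hF₂ hG hd m₂ c₂ (k₂.notw n₂ gm b) r₂ c₅
  refine acm_of_lift h₁ h₂ hR (fr b).w_hom (w₁ b) (w₂ b)
    (pm c₃ (L (L m₁)) (L (Ideal.mem_sup_right m₂)) (L (L g₁)) (s _ _)) x₁ x₂ y₁ y₂ z₁ z₂
    fun q q₁ q₂ ↦ ?_
  obtain ⟨u₁, α₁, β₁, e₁⟩ := sec_rel r₁ q₁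
  obtain ⟨u₂, α₂, β₂, e₂⟩ := sec_rel r₂ q₂
  obtain ⟨α, β, γ, e₃⟩ := mem3.1 (sat_reg (k₀.regl n₂ b).sat (pm c₃ (L (mem3.2 ⟨1, 0, 0, by ring⟩))
    (L (mem3.2 ⟨0, 1, 0, by ring⟩)) (s _ _) (L (s _ _))) (u₁ - u₂)
    (mem3.2 ⟨-α₁, α₂, β₂ - β₁, by linear_combination e₂ - e₁⟩))
  obtain ⟨g, hg⟩ := (fr b).exists_pw q
  have e₄ : q + (fr b).w * ((fr b).pw (u₁ - α * F₁) - g) =
      (fr b).pw q + (fr b).w * (fr b).pw (u₁ - α * F₁) := by linear_combination hg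
  refine ⟨(fr b).pw (u₁ - α * F₁) - g, e₄ ▸ t₁ _ _ (mem2.2 ⟨α₁ + G * α, β₁, ?_⟩),
    e₄ ▸ t₂ _ _ (mem2.2 ⟨α₂ - G * β, β₂ - G * γ, ?_⟩)⟩
  · linear_combination e₁
  · linear_combination e₂ - G * e₃

end Pool.Agent.Lib.JC99
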