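import Pool.Agent.Lib.MP_d54a3f_ag.Main

/-! Auxiliary notions for the joint cone degeneration (not used in the final statement). -/

open MvPolynomial Pool.Agent.Lib.MP_d54a3f_ag

namespace Pool.Agent.Lib.JC99

variable {k : Type*} [Field k]

/-- graded automorphisms -/
def Gr (e : S k ≃ₐ[k] S k) : Prop :=
  (∀ (f : S k) n, f.IsHomogeneous n → (e f).IsHomogeneous n) ∧
    ∀ (f : S k) n, f.IsHomogeneous n → (e.symm f).IsHomogeneous n

/-- the sum of the two plane sections misses a form of degree `j` -/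
def Qne (P₁ P₂ : Ideal (S k)) (j : ℕ) : Prop :=
  ∀ w : S k, w.IsHomogeneous 1 → w ∉ P₁ → w ∉ P₂ → hilb ((P₁ ⊔ P₂) ⊔ Ideal.span {w}) j ≠ 0

/-- the ideal with three generators -/
noncomputable def I3 (a b c : S k) : Ideal (S k) :=
  (Ideal.span {a} ⊔ Ideal.span {b}) ⊔ Ideal.span {c}

/-- the ideal with four generators -/
noncomputable def I4 (a b c d : S k) : Ideal (S k) := I3 a b c ⊔ Ideal.span {d}

end Pool.Agent.Lib.JC99
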