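import Pool.Agent.Lib.JC99.Defs

/-! Hilbert function counts for the joint cone degeneration. -/

open MvPolynomial Module Pool.Agent.Lib.MP_d54a3f_ag

namespace Pool.Agent.Lib.JC99

variable {k : Type*} [Field k]

theorem hil_zero_succ {I : Ideal (S k)} {n : ℕ} (h : hilb I n = 0) : hilb I (n + 1) = 0 := by
  rw [hilb_eq_zero_iff] at h ⊢
  intro f hf
  have key := hom_ind (p := fun m g ↦ g.IsHomogeneous m ∧ (m = n + 1 → g ∈ I))
    (fun c ↦ ⟨isHomogeneous_C _ c, fun e ↦ absurd e (by omega)⟩)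
    (fun m ↦ ⟨isHomogeneous_zero _ _ _, fun _ ↦ I.zero_mem⟩)
    (fun m a b ha hb ↦ ⟨ha.1.add hb.1, fun e ↦ I.add_mem (ha.2 e) (hb.2 e)⟩)
    (fun m c i a ha ↦ ⟨by
      have h1 : (C c * X i : S k).IsHomogeneous 1 := (isHomogeneous_X k i).C_mul c
      exact add_comm 1 m ▸ h1.mul ha.1, fun e ↦ I.mul_mem_left _ (h a (by
        have : m = n := by omega
        exact this ▸ ha.1))⟩) hf
  exact key.2 rfl

theorem Qne.mono {P₁ P₂ : Ideal (S k)} {i j : ℕ} (h : Qne P₁ P₂ j) (hij : i ≤ j) :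
    Qne P₁ P₂ i := by
  intro w hw h1 h2 h0
  refine h w hw h1 h2 ?_
  induction j, hij using Nat.le_induction with
  | base => exact h0
  | succ n hn ih =>
    by_contra hc
    exact hc (hil_zero_succ (by
      by_contra hd
      exact hd (ih fun w' hw' a b e ↦ h w' hw' a b (hil_zero_succ e))))

theorem qne_of_grow {P₁ P₂ : Ideal (S k)} (h₁ : IsHom P₁) (h₂ : IsHom P₂) {i : ℕ}
    (h : hilb (P₁ ⊔ P₂) i < hilb (P₁ ⊔ P₂) (i + 1)) : Qne P₁ P₂ (i + 1) := by
  intro w hw w1 _ h0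
  have hw0 : w ≠ 0 := fun e ↦ w1 (e ▸ P₁.zero_mem)
  have e1 := hilb_succ (h₁.sup h₂) hw hw0 i
  have e2 := hilb_anti (le_col (P₁ ⊔ P₂) w) i
  omega

theorem hil_dm (n : ℕ) : dm (homogeneousSubmodule (Fin 4) k n) = (n + 3).choose 3 := by
  have e : homogeneousSubmodule (Fin 4) k n =
      restrictSupport k {d : Fin 4 →₀ ℕ | d.degree = n} :=
    homogeneousSubmodule_eq_finsupp_supported _ _ n
  rw [e, dm, finrank_eq_nat_card_basis (basisRestrictSupport k _)]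
  have e2 : {d : Fin 4 →₀ ℕ | d.degree = n} ≃ Sym (Fin 4) n :=
    (Equiv.subtypeEquivRight fun d ↦ Iff.rfl).trans (Sym.equivNatSum (Fin 4) n).symm
  rw [Nat.card_congr e2, Nat.card_eq_fintype_card, Sym.card_sym_eq_choose, Fintype.card_fin,
    show 4 + n - 1 = n + 3 by omega]
  exact Nat.choose_symm_add

theorem hil_bot (n : ℕ) : hilb (⊥ : Ideal (S k)) n = (n + 3).choose 3 := by
  have h := hilb_add (⊥ : Ideal (S k)) n
  have e : part (⊥ : Ideal (S k)) n = ⊥ := eq_bot_iff.2 fun f hf ↦ hf.2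
  rw [e, hil_dm, dm, finrank_bot] at h
  exact h

theorem hil_deg {I : Ideal (S k)} (hI : IsHom I) {w : S k} {d : ℕ} (hw : w.IsHomogeneous d)
    (hw0 : w ≠ 0) (n : ℕ) :
    hilb I (d + n) = hilb (col I w) n + hilb (I ⊔ Ideal.span {w}) (d + n) := by
  set μ : S k →ₗ[k] S k := LinearMap.mulLeft k w with hμ
  have hinj : Function.Injective μ := fun a b h ↦ mul_left_cancel₀ hw0 h
  have e1 : part (I ⊔ Ideal.span {w}) (d + n) =
      part I (d + n) ⊔ (homogeneousSubmodule (Fin 4) k n).map μ := by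
    refine le_antisymm (fun f hf ↦ ?_) (sup_le (part_mono le_sup_left _) ?_)
    · obtain ⟨g, hg, h⟩ := mem_sup_span_hom hI hw hf.1 hf.2
      refine Submodule.mem_sup.2 ⟨f - w * g, ⟨hf.1.sub (hw.mul hg), h⟩, w * g,
        ⟨g, hg, rfl⟩, by ring⟩
    · rintro _ ⟨g, hg, rfl⟩
      exact ⟨hw.mul hg, Ideal.mul_mem_right _ _ (mem_sup_span_self I w)⟩
  have e2 : part I (d + n) ⊓ (homogeneousSubmodule (Fin 4) k n).map μ =
      (part (col I w) n).map μ := by
    refine le_antisymm ?_ ?_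
    · rintro _ ⟨h1, g, hg, rfl⟩
      exact ⟨g, ⟨hg, mem_col.2 h1.2⟩, rfl⟩
    · rintro _ ⟨g, hg, rfl⟩
      exact ⟨⟨hw.mul hg.1, mem_col.1 hg.2⟩, g, hg.1, rfl⟩
  have h : dm _ + dm _ = dm _ + dm _ := Submodule.finrank_sup_add_finrank_inf_eq (part I (d + n))
    ((homogeneousSubmodule (Fin 4) k n).map μ)
  have e3 (p : Submodule k (S k)) : dm (p.map μ) = dm p :=
    (Submodule.equivMapOfInjective μ hinj p).finrank_eq.symm
  rw [← e1, e2, e3, e3] at h
  have h1 := hilb_add I (d + n)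
  have h2 := hilb_add (I ⊔ Ideal.span {w}) (d + n)
  have h3 := hilb_add (col I w) n
  omega

theorem hil_low {I : Ideal (S k)} (hI : IsHom I) {w : S k} {d n : ℕ} (hw : w.IsHomogeneous d)
    (hn : n < d) : hilb (I ⊔ Ideal.span {w}) n = hilb I n :=
  hilb_congr fun _ hf ↦ ⟨mem_sup_span_lt hI hw hf hn, Ideal.mem_sup_left⟩

theorem hil_homBot : IsHom (⊥ : Ideal (S k)) := fun f hf n ↦ by
  rw [Ideal.mem_bot.1 hf, map_zero]
  exact Ideal.zero_mem _

theorem hil_lin {w : S k} (hw : w.IsHomogeneous 1) (hw0 : w ≠ 0) (n : ℕ) :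
    hilb (Ideal.span {w}) n = (n + 2).choose 2 := by
  rcases n with _ | n
  · have h := hilb_zero_sup hil_homBot hw
    rw [bot_sup_eq, hil_bot] at h
    exact h.symm
  · have h := hilb_succ hil_homBot hw hw0 n
    rw [col_eq fun f hf ↦ Ideal.mem_bot.2 ((mul_eq_zero.1 (Ideal.mem_bot.1 hf)).resolve_left hw0),
      bot_sup_eq, hil_bot, hil_bot] at h
    have e : (n + 1 + 3).choose 3 = (n + 3).choose 2 + (n + 3).choose 3 := Nat.choose_succ_succ' _ _
    rw [show n + 1 + 2 = n + 3 by omega]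
    omega

theorem hil_sup_inf {I J : Ideal (S k)} (hI : IsHom I) (hJ : IsHom J) (n : ℕ) :
    hilb I n + hilb J n = hilb (I ⊔ J) n + hilb (I ⊓ J) n := by
  have e1 : part (I ⊔ J) n = part I n ⊔ part J n := by
    refine le_antisymm (fun f hf ↦ ?_) (sup_le (part_mono le_sup_left _) (part_mono le_sup_right _))
    obtain ⟨a, ha, b, hb, e⟩ := Submodule.mem_sup.1 hf.2
    refine Submodule.mem_sup.2 ⟨_, ⟨homogeneousComponent_isHomogeneous n a, hI a ha n⟩, _,
      ⟨homogeneousComponent_isHomogeneous n b, hJ b hb n⟩, ?_⟩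
    rw [← map_add, e, comp_self hf.1]
  have e2 : part (I ⊓ J) n = part I n ⊓ part J n :=
    le_antisymm (le_inf (part_mono inf_le_left _) (part_mono inf_le_right _))
      fun f hf ↦ ⟨hf.1.1, hf.1.2, hf.2.2⟩
  have h : dm _ + dm _ = dm _ + dm _ := Submodule.finrank_sup_add_finrank_inf_eq (part I n) (part J n)
  rw [← e1, ← e2] at h
  have h1 := hilb_add I n
  have h2 := hilb_add J n
  have h3 := hilb_add (I ⊔ J) n
  have h4 := hilb_add (I ⊓ J) n
  omega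

theorem hil_tele (I : Ideal (S k)) (j : ℕ) : ∑ n ∈ Finset.range (j + 1), hvec I n =
    (hilb I j : ℤ) - if 1 ≤ j then (hilb I (j - 1) : ℤ) else 0 := by
  induction j with
  | zero => simp [hvec]
  | succ j ih =>
    rw [Finset.sum_range_succ, ih]
    rcases j with _ | j
    · simp [hvec]
      ring
    · simp only [hvec, le_add_iff_nonneg_left, zero_le, if_true, add_tsub_cancel_right,
        show 2 ≤ j + 1 + 1 by omega, show j + 1 + 1 - 2 = j by omega]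
      ring

theorem hil_sum {P : Ideal (S k)} (h : IsIntACM P) {w : S k} (hw : w.IsHomogeneous 1)
    (hwP : w ∉ P) (j : ℕ) :
    ∑ n ∈ Finset.range (j + 1), hvec P n = hilb (P ⊔ Ideal.span {w}) j := by
  have hw0 : w ≠ 0 := fun e ↦ hwP (e ▸ P.zero_mem)
  rw [hil_tele]
  rcases j with _ | j
  · simp [hilb_zero_sup h.2.hom hw]
  · have e := hilb_succ h.2.hom hw hw0 j
    rw [col_eq fun f hf ↦ (h.1.mem_or_mem hf).resolve_left hwP] at e
    simp only [le_add_iff_nonneg_left, zero_le, if_true, add_tsub_cancel_right]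
    omega

theorem qne_of_hvec {P₁ P₂ : Ideal (S k)} (h₁ : IsIntACM P₁) (h₂ : IsIntACM P₂) {j : ℕ}
    (h : ((j + 2).choose 2 : ℤ) < ∑ n ∈ Finset.range (j + 1), (hvec P₁ n + hvec P₂ n)) :
    Qne P₁ P₂ j := by
  intro w hw w1 w2 h0
  have hw0 : w ≠ 0 := fun e ↦ w1 (e ▸ P₁.zero_mem)
  rw [Finset.sum_add_distrib, hil_sum h₁ hw w1, hil_sum h₂ hw w2] at h
  have e := hil_sup_inf (h₁.2.hom.sup (isHom_span1 hw)) (h₂.2.hom.sup (isHom_span1 hw)) j
  rw [← sup_sup_distrib_right, h0] at e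
  have e2 := hilb_anti (le_inf (le_sup_right : Ideal.span {w} ≤ P₁ ⊔ Ideal.span {w})
    (le_sup_right : Ideal.span {w} ≤ P₂ ⊔ Ideal.span {w})) j
  rw [hil_lin hw hw0] at e2
  omega

theorem hil_exists_lin [Infinite k] {𝒬 : Set (Ideal (S k))} (h𝒬 : 𝒬.Finite)
    (h : ∀ Q ∈ 𝒬, ∃ i, X i ∉ Q) : ∃ w : S k, w.IsHomogeneous 1 ∧ ∀ Q ∈ 𝒬, w ∉ Q := by
  induction 𝒬, h𝒬 using Set.Finite.induction_on with
  | empty => exact ⟨0, isHomogeneous_zero _ _ _, fun _ hQ ↦ absurd hQ (Set.notMem_empty _)⟩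
  | @insert Q0 s _ hs ih =>
    obtain ⟨w, hw, hw'⟩ := ih fun Q hQ ↦ h Q (Set.mem_insert_of_mem _ hQ)
    obtain ⟨i, hi⟩ := h Q0 (Set.mem_insert _ _)
    have hf := avoid (hs.insert Q0) (x := w) (y := X i) (by
      rintro Q (rfl | hQ) hx
      · exact hi
      · exact absurd hx (hw' Q hQ))
    obtain ⟨b, hb⟩ := hf.exists_notMem
    exact ⟨w + C b * X i, hw.add ((isHomogeneous_X k i).C_mul b), fun Q hQ hm ↦ hb ⟨Q, hQ, hm⟩⟩

theorem hil_prime {w : S k} (hw : w.IsHomogeneous 1) (hw0 : w ≠ 0) : Prime w := by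
  have hd := hw.totalDegree hw0
  have hu {a : S k} (h0 : a ≠ 0) (h : a.totalDegree = 0) : IsUnit a := by
    have h1 := (totalDegree_eq_zero_iff_eq_C (p := a)).1 h
    exact h1 ▸ (IsUnit.mk0 _ fun z ↦ h0 (by rw [h1, z, map_zero])).map C
  refine Irreducible.prime ⟨fun h ↦ ?_, fun a b e ↦ ?_⟩
  · exact mm_prime.ne_top (Ideal.eq_top_of_isUnit_mem _ (hom_mem_mm hw one_ne_zero) h)
  · have ha : a ≠ 0 := fun z ↦ hw0 (by rw [e, z, zero_mul])
    have hb : b ≠ 0 := fun z ↦ hw0 (by rw [e, z, mul_zero])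
    rw [e, totalDegree_mul_of_isDomain ha hb] at hd
    by_cases h : a.totalDegree = 0
    · exact Or.inl (hu ha h)
    · exact Or.inr (hu hb (by omega))

theorem hil_pair {w F : S k} {s : ℕ} (hw : w.IsHomogeneous 1) (hw0 : w ≠ 0)
    (hF : F.IsHomogeneous s) (hFw : F ∉ Ideal.span {w}) (n : ℕ) :
    hilb (Ideal.span {w} ⊔ Ideal.span {F}) n + (n + 2 - s).choose 2 = (n + 2).choose 2 := by
  rcases lt_or_ge n s with h | h
  · rw [hil_low (isHom_span1 hw) hF h, hil_lin hw hw0, Nat.choose_eq_zero_of_lt (by omega : n + 2 - s < 2),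
      add_zero]
  · obtain ⟨m, rfl⟩ := Nat.exists_eq_add_of_le h
    have hp := (Ideal.span_singleton_prime hw0).2 (hil_prime hw hw0)
    have e := hil_deg (isHom_span1 hw) hF (fun z ↦ hFw (z ▸ Ideal.zero_mem _)) m
    rw [col_eq fun f hf ↦ (hp.mem_or_mem hf).resolve_left hFw, hil_lin hw hw0, hil_lin hw hw0] at e
    rw [show s + m + 2 - s = m + 2 by omega]
    omega

theorem hil_step (r : ℕ) : (r + 1).choose 2 = r.choose 2 + r := by
  rw [Nat.choose_succ_succ', Nat.choose_one_right, add_comm]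

theorem hil_mono (s : ℕ) {m r : ℕ} (h : m ≤ r) :
    m.choose 2 + (r - s).choose 2 ≤ r.choose 2 + (m - s).choose 2 := by
  induction r, h using Nat.le_induction with
  | base => exact le_rfl
  | succ r _ ih =>
    rw [hil_step]
    rcases le_or_gt s r with h | h
    · rw [show r + 1 - s = r - s + 1 by omega, hil_step]
      omega
    · rw [show r + 1 - s = r - s by omega]
      omega

theorem hil_two (m : ℕ) : 2 * (m.choose 2 : ℤ) = m * m - m := by
  induction m with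
  | zero => simp
  | succ m ih =>
    rw [hil_step]
    push_cast
    linear_combination ih

theorem hil_one {F G w : S k} {s t r j : ℕ} (h : IsIntACM (Ideal.span {F, G}))
    (hF : F.IsHomogeneous s) (hG : G.IsHomogeneous t) (l : s ≤ t) (h0 : F ≠ 0)
    (hw : w.IsHomogeneous 1) (hwP : w ∉ Ideal.span {F, G}) (hj : s + r = j + 2) :
    1 ≤ s ∧ (j + 2).choose 2 + (r - s).choose 2 ≤
      hilb (Ideal.span {F, G} ⊔ Ideal.span {w}) j + 2 * r.choose 2 := by
  have hw0 : w ≠ 0 := fun e ↦ hwP (e ▸ Ideal.zero_mem _)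
  have mF : F ∈ Ideal.span {F, G} := Ideal.subset_span (Set.mem_insert _ _)
  have hs : 1 ≤ s := by
    by_contra hc
    obtain rfl : s = 0 := by omega
    have h1 := (totalDegree_eq_zero_iff_eq_C (p := F)).1 (hF.totalDegree h0)
    exact h.1.ne_top (Ideal.eq_top_of_isUnit_mem _ mF
      (h1 ▸ (IsUnit.mk0 _ fun z ↦ h0 (by rw [h1, z, map_zero])).map C))
  refine ⟨hs, ?_⟩
  have hFw : F ∉ Ideal.span {w} := by
    intro hm
    obtain ⟨u, rfl⟩ := Nat.exists_eq_add_of_le hs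
    obtain ⟨g, hg, e⟩ := mem_sup_span_hom hil_homBot hw hF (Ideal.mem_sup_right hm)
    have e' : F = w * g := sub_eq_zero.1 (Ideal.mem_bot.1 e)
    have m1 : g ∈ Ideal.span {F, G} := (h.1.mem_or_mem (e' ▸ mF)).resolve_left hwP
    rw [Ideal.span_insert] at m1
    have m2 := mem_sup_span_lt (isHom_span1 hF) hG hg (by omega) m1
    have m3 := mem_sup_span_lt hil_homBot hF hg (by omega) (Ideal.mem_sup_right m2)
    exact h0 (by rw [e', Ideal.mem_bot.1 m3, mul_zero])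
  have e : Ideal.span {F, G} ⊔ Ideal.span {w} =
      (Ideal.span {w} ⊔ Ideal.span {F}) ⊔ Ideal.span {G} := by
    rw [Ideal.span_insert, sup_comm, sup_assoc]
  have hI := (isHom_span1 hw).sup (isHom_span1 hF)
  have p1 := hil_pair hw hw0 hF hFw j
  have p2 : (r - s).choose 2 ≤ r.choose 2 := Nat.choose_le_choose 2 (Nat.sub_le _ _)
  rw [show j + 2 - s = r by omega] at p1
  rw [e]
  by_cases hG0 : G = 0
  · rw [hG0, Ideal.span_singleton_zero, sup_bot_eq]
    omega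
  rcases lt_or_ge j t with hl | hl
  · rw [hil_low hI hG hl]
    omega
  · obtain ⟨n, rfl⟩ := Nat.exists_eq_add_of_le hl
    have p3 := hil_deg hI hG hG0 n
    have p4 := hilb_anti (le_col (Ideal.span {w} ⊔ Ideal.span {F}) G) n
    have p5 := hil_pair hw hw0 hF hFw n
    have p6 := hil_mono s (by omega : n + 2 ≤ r)
    omega

theorem ci_hvec [IsAlgClosed k] {F₁ G₁ F₂ G₂ : S k} {s₁ t₁ s₂ t₂ j : ℕ}
    (h₁ : IsIntACM (Ideal.span {F₁, G₁})) (h₂ : IsIntACM (Ideal.span {F₂, G₂}))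
    (hF₁ : F₁.IsHomogeneous s₁) (hG₁ : G₁.IsHomogeneous t₁) (hF₂ : F₂.IsHomogeneous s₂)
    (hG₂ : G₂.IsHomogeneous t₂) (l₁ : s₁ ≤ t₁) (l₂ : s₂ ≤ t₂) (hj : s₁ + s₂ = j + 2)
    (n₁ : F₁ ≠ 0) (n₂ : F₂ ≠ 0) :
    ((j + 2).choose 2 : ℤ) < ∑ n ∈ Finset.range (j + 1),
      (hvec (Ideal.span {F₁, G₁}) n + hvec (Ideal.span {F₂, G₂}) n) := by
  obtain ⟨w, hw, hw'⟩ := hil_exists_lin
    (𝒬 := {Ideal.span {F₁, G₁}, Ideal.span {F₂, G₂}}) (Set.toFinite _) (by
      rintro Q (rfl | rfl)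
      · exact h₁.exists_X
      · exact h₂.exists_X)
  have w1 := hw' _ (Set.mem_insert _ _)
  have w2 := hw' _ (Set.mem_insert_of_mem _ rfl)
  obtain ⟨a1, b1⟩ := hil_one h₁ hF₁ hG₁ l₁ n₁ hw w1 hj
  obtain ⟨a2, b2⟩ := hil_one h₂ hF₂ hG₂ l₂ n₂ hw w2 ((add_comm s₂ s₁).trans hj)
  rw [Finset.sum_add_distrib, hil_sum h₁ hw w1, hil_sum h₂ hw w2]
  rw [← hj] at b1 b2 ⊢
  have t0 := hil_two (s₁ + s₂)
  have t1 := hil_two s₁
  have t2 := hil_two s₂
  have t3 := hil_two (s₁ - s₂)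
  have t4 := hil_two (s₂ - s₁)
  zify at a1 a2 b1 b2
  rcases le_total s₁ s₂ with h | h
  · rw [Nat.cast_sub h] at t4
    rw [Nat.sub_eq_zero_of_le h] at t3 b2
    push_cast at t0 t3
    nlinarith
  · rw [Nat.cast_sub h] at t3
    rw [Nat.sub_eq_zero_of_le h] at t4 b1
    push_cast at t0 t4
    nlinarith

theorem cyc [IsAlgClosed k] {P₁ : Ideal (S k)} {F G : S k} {t : ℕ} (h₁ : IsIntACM P₁)
    (h₂ : IsIntACM (Ideal.span {F, G})) (hne : P₁ ≠ Ideal.span {F, G}) (hG : G.IsHomogeneous t)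
    (hF : F ∈ P₁) : IsACM (P₁ ⊓ Ideal.span {F, G}) := by
  have _ := hG
  have hG1 : G ∉ P₁ := by
    intro hm
    obtain ⟨g, d, -, m2, m1⟩ := not_le_of_ne h₁ h₂ hne
    refine m1 (Ideal.span_le.2 ?_ m2)
    rintro x (rfl | rfl)
    · exact hF
    · exact hm
  have e : P₁ ⊔ Ideal.span {F, G} = P₁ ⊔ Ideal.span {G} := by
    rw [Ideal.span_insert, ← sup_assoc,
      sup_eq_left.2 ((Ideal.span_singleton_le_iff_mem _).2 hF)]
  obtain ⟨A, hA, hA1, hA2⟩ := (h₁.sat hG1).exists_primes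
  obtain ⟨w, hw, hw'⟩ := hil_exists_lin ((hA.insert (Ideal.span {F, G})).insert P₁) (by
    rintro Q (rfl | rfl | hQ)
    · exact h₁.exists_X
    · exact h₂.exists_X
    · exact (hA1 Q hQ).2.2)
  refine acm_union h₁ h₂ hw (hw' _ (Set.mem_insert _ _))
    (hw' _ (Set.mem_insert_of_mem _ (Set.mem_insert _ _))) ?_
  rw [e]
  exact hA2 w fun Q hQ ↦ hw' Q (Set.mem_insert_of_mem _ (Set.mem_insert_of_mem _ hQ))

end Pool.Agent.Lib.JC99
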