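import Pool.Agent.Lib.JC99.Defs

/-! Transport along graded automorphisms, and standard coordinates. -/

open MvPolynomial Module Pool.Agent.Lib.MP_d54a3f_ag

namespace Pool.Agent.Lib.JC99

variable {k : Type*} [Field k]

theorem Gr.symm {e : S k ≃ₐ[k] S k} (h : Gr e) : Gr e.symm := ⟨h.2, h.1⟩

theorem Gr.trans {e e' : S k ≃ₐ[k] S k} (h : Gr e) (h' : Gr e') : Gr (e.trans e') :=
  ⟨fun f n hf ↦ h'.1 _ n (h.1 f n hf), fun f n hf ↦ h.2 _ n (h'.2 f n hf)⟩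

theorem gr_le {M N : Matrix (Fin 4) (Fin 4) k} (h : N * M = 1) : Gr (le h) :=
  ⟨fun _ _ hf ↦ lm_hom M hf, fun _ _ hf ↦ lm_hom N hf⟩

theorem Gr.comp {e : S k ≃ₐ[k] S k} (h : Gr e) (n : ℕ) (f : S k) :
    homogeneousComponent n (e f) = e (homogeneousComponent n f) := by
  have key (g : S k) (i : ℕ) (hg : g.IsHomogeneous i) :
      homogeneousComponent n (e g) = e (homogeneousComponent n g) := by
    rw [homogeneousComponent_of_mem (h.1 g i hg), homogeneousComponent_of_mem hg]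
    split_ifs <;> simp
  have h1 := sum_homogeneousComponent f
  calc homogeneousComponent n (e f)
      = homogeneousComponent n (e (∑ i ∈ Finset.range (f.totalDegree + 1),
          homogeneousComponent i f)) := by rw [h1]
    _ = e (homogeneousComponent n (∑ i ∈ Finset.range (f.totalDegree + 1),
          homogeneousComponent i f)) := by
        simp only [map_sum]
        exact Finset.sum_congr rfl fun i _ ↦ key _ i (homogeneousComponent_isHomogeneous i f)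
    _ = _ := by rw [h1]

theorem tr_comap_sup (e : S k ≃ₐ[k] S k) (I J : Ideal (S k)) :
    (I ⊔ J).comap e = I.comap e ⊔ J.comap e := by
  refine le_antisymm (fun x hx ↦ ?_)
    (sup_le (Ideal.comap_mono le_sup_left) (Ideal.comap_mono le_sup_right))
  obtain ⟨a, ha, b, hb, h⟩ := Submodule.mem_sup.1 (Ideal.mem_comap.1 hx)
  refine Submodule.mem_sup.2 ⟨e.symm a, ?_, e.symm b, ?_, ?_⟩
  · rwa [Ideal.mem_comap, e.apply_symm_apply]
  · rwa [Ideal.mem_comap, e.apply_symm_apply]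
  · rw [← map_add, h, e.symm_apply_apply]

theorem tr_comap_span (e : S k ≃ₐ[k] S k) (a : S k) :
    (Ideal.span {e a}).comap e = Ideal.span {a} := by
  ext x
  rw [Ideal.mem_comap, Ideal.mem_span_singleton, Ideal.mem_span_singleton, map_dvd_iff]

theorem Gr.hilb {e : S k ≃ₐ[k] S k} (h : Gr e) (I : Ideal (S k)) : hilb (I.comap e) = hilb I := by
  funext n
  have h1 := hilb_add (I.comap e) n
  have h2 := hilb_add I n
  have h3 : (part (I.comap e) n).map (e.toLinearEquiv : S k →ₗ[k] S k) = part I n := by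
    ext x
    rw [Submodule.mem_map, mem_part]
    constructor
    · rintro ⟨y, hy, rfl⟩
      exact ⟨h.1 y n (mem_part.1 hy).1, (mem_part.1 hy).2⟩
    · rintro ⟨k1, k2⟩
      refine ⟨e.symm x, mem_part.2 ⟨h.2 x n k1, ?_⟩, e.apply_symm_apply x⟩
      rwa [Ideal.mem_comap, e.apply_symm_apply]
  have h4 : dm (part I n) = dm (part (I.comap e) n) := by
    rw [← h3]
    exact LinearEquiv.finrank_map_eq _ _
  omega

theorem Gr.isHom {e : S k ≃ₐ[k] S k} (h : Gr e) {I : Ideal (S k)} (hI : IsHom I) :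
    IsHom (I.comap e) := fun f hf n ↦ by
  rw [Ideal.mem_comap, ← h.comp]
  exact hI _ hf n

theorem Gr.cc {e : S k ≃ₐ[k] S k} (h : Gr e) {a : S k} (ha : constantCoeff a = 0) :
    constantCoeff (e a) = 0 := by
  have h1 := h.comp 0 a
  rw [homogeneousComponent_zero, homogeneousComponent_zero, ← constantCoeff_eq, ha, map_zero,
    map_zero] at h1
  exact C_eq_zero.1 h1

theorem Gr.acm {e : S k ≃ₐ[k] S k} (h : Gr e) {I : Ideal (S k)} (hI : IsACM I) :
    IsACM (I.comap e) := by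
  obtain ⟨h1, h2, a, b, ha, hb, r1, r2⟩ := hI
  refine ⟨h.isHom h1, ?_, e.symm a, e.symm b, h.symm.cc ha, h.symm.cc hb, fun f hf ↦ ?_,
    fun f hf ↦ ?_⟩
  · rw [← h2]
    exact ringKrullDim_eq_of_ringEquiv (Ideal.quotientEquiv _ _ (e : S k ≃+* S k)
      (Ideal.map_comap_of_surjective _ e.surjective I).symm)
  · rw [Ideal.mem_comap, map_mul, e.apply_symm_apply] at hf
    exact r1 _ hf
  · rw [← tr_comap_span e (e.symm a), ← tr_comap_sup, e.apply_symm_apply, Ideal.mem_comap] at hf ⊢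
    rw [map_mul, e.apply_symm_apply] at hf
    exact r2 _ hf

theorem Gr.intACM {e : S k ≃ₐ[k] S k} (h : Gr e) {I : Ideal (S k)} (hI : IsIntACM I) :
    IsIntACM (I.comap e) :=
  ⟨Ideal.comap_isPrime _ _ (H := hI.1), h.acm hI.2⟩

theorem Gr.realizes {e : S k ≃ₐ[k] S k} (h : Gr e) {P₁ P₂ : Ideal (S k)} (hR : Realizes P₁ P₂) :
    Realizes (P₁.comap e) (P₂.comap e) := by
  obtain ⟨N, h1, h2⟩ := hR
  refine ⟨N, ?_, fun Q₁ Q₂ N' a b c d₁ d₂ g ↦ h2 Q₁ Q₂ N' a b c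
    (d₁.trans (hvec_congr (h.hilb _))) (d₂.trans (hvec_congr (h.hilb _))) g⟩
  unfold MP_d54a3f_ag.Inter at h1 ⊢
  rwa [← tr_comap_sup, h.hilb]

theorem Gr.qne {e : S k ≃ₐ[k] S k} (h : Gr e) {P₁ P₂ : Ideal (S k)} {j : ℕ} (hQ : Qne P₁ P₂ j) :
    Qne (P₁.comap e) (P₂.comap e) j := fun w hw w₁ w₂ ↦ by
  rw [← tr_comap_span e w, ← tr_comap_sup, ← tr_comap_sup, h.hilb]
  exact hQ _ (h.1 w 1 hw) w₁ w₂

theorem tr_disc {F D : S k} {f : ℕ} (hF : F.IsHomogeneous f) (hp : Prime F)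
    (h0 : eval (Pi.single 0 1) F ≠ 0) (hD : ¬ F ∣ D) : ∃ d : A3 k, d ≠ 0 ∧ ∀ u, eval u d ≠ 0 →
      ∀ c, eval (Fin.cons c u) F = 0 → eval (Fin.cons c u) D ≠ 0 := by
  have hu : IsUnit (C (eval (Pi.single 0 1) F)⁻¹ : S k) := (IsUnit.mk0 _ (inv_ne_zero h0)).map C
  obtain ⟨hm, -⟩ := monic_e (hF.C_mul (eval (Pi.single 0 1) F)⁻¹) (by simp [h0])
  obtain ⟨d, hd0, a, b, e⟩ := bez hm ((MulEquiv.irreducible_iff (finSuccEquiv k 3)).2
    ((prime_isUnit_mul hu).2 hp).irreducible) (G := finSuccEquiv k 3 D) fun e ↦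
      hD (hu.mul_left_dvd.1 ((map_dvd_iff _).1 e))
  refine ⟨d, hd0, fun u hu' c hc z ↦ hu' ?_⟩
  have e1 := congrArg (fun p ↦ Polynomial.eval c (Polynomial.map (eval u) p)) e
  simp only [Polynomial.map_add, Polynomial.map_mul, Polynomial.eval_add, Polynomial.eval_mul,
    Polynomial.map_C, Polynomial.eval_C, ← eval_eq_eval_mv_eval'] at e1
  rw [e1, z, map_mul, hc]
  simp

variable [IsAlgClosed k]

theorem tr_prim {F T : S k} {f t : ℕ} (hF : F.IsHomogeneous f) (hT : T.IsHomogeneous t)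
    (h0 : eval (Pi.single 0 1) F ≠ 0) (hf : f ≠ 0)
    (h1 : ∀ c, eval ![c, 0, 0, 1] F = 0 → eval ![c, 0, 0, 1] T ≠ 0) :
    Prim (I4 F T (X 1) (X 2)) := by
  intro i
  rw [← vanishingIdeal_zeroLocus_eq_radical (K := k), mem_vanishingIdeal_iff]
  intro z hz
  have zF := hz F (Ideal.mem_sup_left (Ideal.mem_sup_left
    (Ideal.mem_sup_left (Ideal.mem_span_singleton_self _))))
  have zT := hz T (Ideal.mem_sup_left (Ideal.mem_sup_left (mem_sup_span_self _ _)))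
  have z1 := hz (X 1) (Ideal.mem_sup_left (mem_sup_span_self _ _))
  have z2 := hz (X 2) (mem_sup_span_self _ _)
  rw [aeval_X] at z1 z2 ⊢
  by_cases z3 : z 3 = 0
  · have e : z = fun j ↦ (Pi.single 0 1 : Fin 4 → k) j * z 0 := by
      funext j
      fin_cases j <;> simp [z1, z2, z3]
    rw [e, scale _ _ hF, aeval_eq_eval] at zF
    have z0 : z 0 = 0 := (pow_eq_zero_iff hf).1 ((mul_eq_zero.1 zF).resolve_left h0)
    fin_cases i
    exacts [z0, z1, z2, z3]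
  · have e : z = fun j ↦ (![z 0 / z 3, 0, 0, 1] : Fin 4 → k) j * z 3 := by
      funext j
      fin_cases j <;> simp [z1, z2, z3]
    rw [e, scale _ _ hF, aeval_eq_eval] at zF
    rw [e, scale _ _ hT, aeval_eq_eval] at zT
    exact absurd ((mul_eq_zero.1 zT).resolve_right (pow_ne_zero _ z3))
      (h1 _ ((mul_eq_zero.1 zF).resolve_right (pow_ne_zero _ z3)))

variable {ι : Type*} [Fintype ι] {F T : ι → S k}

theorem tr_std2 (hp : ∀ i, Prime (F i)) (hF : ∀ i, ∃ f, (F i).IsHomogeneous f)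
    (hT : ∀ i, ∃ t, (T i).IsHomogeneous t) (nd : ∀ i, ¬ F i ∣ T i)
    (h0 : ∀ i, eval (Pi.single 0 1) (F i) ≠ 0) (h1 : ∀ i, pderiv 0 (F i) ≠ 0) :
    ∃ e : S k ≃ₐ[k] S k, Gr e ∧ {a : k | ∃ i, ¬ Prime ((fr a).pw (e (F i)))}.Finite ∧
      (∀ i, Prim (I4 (e (F i)) (e (T i)) (X 1) (X 2))) ∧
      ∀ i, eval (Pi.single 0 1) (e (F i)) ≠ 0 := by
  have h2 (i : ι) : ¬ F i ∣ pderiv 0 (F i) * T i := fun e ↦ by
    obtain ⟨f, hf⟩ := hF i
    obtain ⟨c, hc⟩ := ((hp i).dvd_or_dvd e).resolve_right (nd i)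
    have h3 := hf.pderiv.totalDegree (h1 i)
    have h4 := deg_pos (hp i) hf
    rw [hc, totalDegree_mul_of_isDomain (hp i).ne_zero fun z ↦ h1 i (by rw [hc, z, mul_zero]),
      hf.totalDegree (hp i).ne_zero] at h3
    omega
  choose d hd hd' using fun i ↦ exists_disc (hF i).choose_spec (hp i) (h0 i) (h2 i)
  choose d₂ hd₂ hd₂' using fun i ↦ tr_disc (hF i).choose_spec (hp i) (h0 i) (nd i)
  obtain ⟨u, hu⟩ := exists_eval_ne (f := (∏ i, d i * d₂ i) * X 2)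
    (mul_ne_zero (Finset.prod_ne_zero_iff.2 fun i _ ↦ mul_ne_zero (hd i) (hd₂ i)) (X_ne_zero _))
  simp only [map_mul, map_prod, mul_ne_zero_iff, Finset.prod_ne_zero_iff, eval_X] at hu
  obtain ⟨u1, u2⟩ := hu
  let M : Matrix (Fin 4) (Fin 4) k := !![1, 0, 0, 0; 0, 1, 0, u 0; 0, 0, 1, u 1; 0, 0, 0, u 2]
  let N : Matrix (Fin 4) (Fin 4) k :=
    !![1, 0, 0, 0; 0, 1, 0, -(u 0 / u 2); 0, 0, 1, -(u 1 / u 2); 0, 0, 0, (u 2)⁻¹]
  have h : N * M = 1 := by
    ext i j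
    fin_cases i <;> fin_cases j <;> simp [M, N, Matrix.mul_apply, Fin.sum_univ_four, u2]
  have e0 : M.mulVec (Pi.single 0 1) = Pi.single 0 1 := by
    ext i
    fin_cases i <;> simp [M]
  have e1 (c : k) : M.mulVec ![c, 0, 0, 1] = Fin.cons c u := by
    ext i
    fin_cases i <;> simp [M, Matrix.mulVec, dotProduct, Fin.sum_univ_four] <;> rfl
  have e2 (G : S k) : pderiv 0 (lm M G) = lm M (pderiv 0 G) := by
    simp [pderiv_lm, M, Fin.sum_univ_four]
  have g0 (i : ι) : eval (Pi.single 0 1) (lm M (F i)) ≠ 0 := by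
    rw [eval_lm, e0]
    exact h0 i
  refine ⟨le h, gr_le h, ?_, fun i ↦ ?_, g0⟩
  · rw [Set.ofPred_exists]
    refine Set.finite_iUnion fun i ↦ ?_
    obtain ⟨c, c1, c2⟩ := hd' i u (u1 i (Finset.mem_univ i)).1
    refine pencil (lm_hom M (hF i).choose_spec) ((MulEquiv.prime_iff (le h)).2 (hp i)) (g0 i)
      (c := c) ?_ ?_
    · rw [le_apply, eval_lm, e1]
      exact c1
    · rw [le_apply, e2, eval_lm, e1]
      exact left_ne_zero_of_mul (map_mul (eval (Fin.cons c u : Fin 4 → k)) _ _ ▸ c2)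
  · refine tr_prim (lm_hom M (hF i).choose_spec) (lm_hom M (hT i).choose_spec) (g0 i)
      (deg_pos (hp i) (hF i).choose_spec) fun c hc ↦ ?_
    rw [le_apply, eval_lm, e1] at hc ⊢
    exact hd₂' i u (u1 i (Finset.mem_univ i)).2 c hc

theorem std_strong (hp : ∀ i, Prime (F i)) (hF : ∀ i, ∃ f, (F i).IsHomogeneous f)
    (hT : ∀ i, ∃ t, (T i).IsHomogeneous t) (nd : ∀ i, ¬ F i ∣ T i) :
    ∃ e : S k ≃ₐ[k] S k, Gr e ∧ {a : k | ∃ i, ¬ Prime ((fr a).pw (e (F i)))}.Finite ∧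
      (∀ i, Prim (I4 (e (F i)) (e (T i)) (X 1) (X 2))) ∧
      ∀ i, eval (Pi.single 0 1) (e (F i)) ≠ 0 := by
  choose j hj using fun i ↦ exists_pderiv (hp i).irreducible
  choose m hm using fun i ↦ ne_zero_iff.1 (hj i)
  obtain ⟨v, hv⟩ := exists_eval_ne
    (f := (∏ i, (F i * lin fun l ↦ coeff (m i) (pderiv l (F i)))) * X 0)
    (mul_ne_zero (Finset.prod_ne_zero_iff.2 fun i _ ↦ mul_ne_zero (hp i).ne_zero fun z ↦ hm i (by
      simpa [eval_lin, Pi.single_apply] using congrArg (eval (Pi.single (j i) 1)) z)) (X_ne_zero _))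
  simp only [map_mul, map_prod, mul_ne_zero_iff, Finset.prod_ne_zero_iff, eval_X, eval_lin] at hv
  obtain ⟨v1, v2⟩ := hv
  let M : Matrix (Fin 4) (Fin 4) k := !![v 0, 0, 0, 0; v 1, 1, 0, 0; v 2, 0, 1, 0; v 3, 0, 0, 1]
  let N : Matrix (Fin 4) (Fin 4) k := !![(v 0)⁻¹, 0, 0, 0; -(v 1 / v 0), 1, 0, 0;
    -(v 2 / v 0), 0, 1, 0; -(v 3 / v 0), 0, 0, 1]
  have h : N * M = 1 := by
    ext i j
    fin_cases i <;> fin_cases j <;> simp [M, N, Matrix.mul_apply, Fin.sum_univ_four, v2]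
  have e0 : M.mulVec (Pi.single 0 1) = v := by
    ext i
    fin_cases i <;> simp [M]
  have e1 (l : Fin 4) : M l 0 = v l := by fin_cases l <;> simp [M]
  obtain ⟨e, he, k1⟩ := tr_std2 (F := fun i ↦ lm M (F i)) (T := fun i ↦ lm M (T i))
    (fun i ↦ (MulEquiv.prime_iff (le h)).2 (hp i)) (fun i ↦ (hF i).imp fun _ ↦ lm_hom M)
    (fun i ↦ (hT i).imp fun _ ↦ lm_hom M) (fun i z ↦ nd i ((map_dvd_iff (le h)).1 z))
    (fun i ↦ by rw [eval_lm, e0]; exact (v1 i (Finset.mem_univ i)).1) fun i z ↦ by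
      rw [pderiv_lm, ← le_apply h, map_eq_zero_iff _ (le h).injective] at z
      refine (v1 i (Finset.mem_univ i)).2 ?_
      simpa [e1, coeff_sum, mul_comm] using congrArg (coeff (m i)) z
  exact ⟨(le h).trans e, (gr_le h).trans he, k1⟩

end Pool.Agent.Lib.JC99

namespace Pool.Agent.Lib.JC99

variable {k : Type*} [Field k]

theorem std [IsAlgClosed k] {ι : Type*} [Fintype ι] {F T : ι → S k} (hp : ∀ i, Prime (F i))
    (hF : ∀ i, ∃ f, (F i).IsHomogeneous f) (hT : ∀ i, ∃ t, (T i).IsHomogeneous t)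
    (nd : ∀ i, ¬ F i ∣ T i) : ∃ e : S k ≃ₐ[k] S k, Gr e ∧
      {a : k | ∃ i, ¬ Prime ((fr a).pw (e (F i)))}.Finite ∧
      ∀ i, Prim (I4 (e (F i)) (e (T i)) (X 1) (X 2)) :=
  (std_strong hp hF hT nd).imp fun _ h ↦ ⟨h.1, h.2.1, h.2.2.1⟩

theorem notMem_line {F : S k} (h : eval (Pi.single 0 1) F ≠ 0) :
    F ∉ Ideal.span {(X 1 : S k)} ⊔ Ideal.span {(X 2 : S k)} := fun hF ↦ by
  obtain ⟨g, hg⟩ := mem_sup_span.1 hF
  obtain ⟨c, hc⟩ := Ideal.mem_span_singleton'.1 hg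
  exact h (by simpa using (congrArg (eval (Pi.single 0 1 : Fin 4 → k)) hc).symm)

end Pool.Agent.Lib.JC99
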