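import Pool.Agent.Lib.JC99.Core
import Pool.Agent.Lib.JC99.Hil
import Pool.Agent.Lib.JC99.Tr

/-! The joint cone degeneration in arbitrary coordinates. -/

open MvPolynomial Module Pool.Agent.Lib.MP_d54a3f_ag

namespace Pool.Agent.Lib.JC99

universe u

variable {k : Type u} [Field k]

theorem ch2_comap (e : S k ≃ₐ[k] S k) {I J : Ideal (S k)} (h : Ch2 I) (hle : J ≤ I.comap e) :
    Ch2 J := by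
  obtain ⟨A, B, C, hA, hB, hC, h0, h1, h2⟩ := h
  have lt {P Q : Ideal (S k)} (h : P < Q) : P.comap e < Q.comap e :=
    lt_of_le_of_ne (Ideal.comap_mono h.le) fun z ↦
      h.ne (Ideal.comap_injective_of_surjective e e.surjective z)
  exact ⟨_, _, _, Ideal.comap_isPrime e A, Ideal.comap_isPrime e B, Ideal.comap_isPrime e C,
    hle.trans (Ideal.comap_mono h0), lt h1, lt h2⟩

theorem joint0 [IsAlgClosed k] {P₁ P₂ : Ideal (S k)} (h₁ : IsIntACM P₁) (h₂ : IsIntACM P₂)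
    (hR : Realizes P₁ P₂) {F₁ F₂ : S k} {f₁ f₂ j : ℕ} (hF₁ : F₁.IsHomogeneous f₁)
    (hF₂ : F₂.IsHomogeneous f₂) (p₁ : Prime F₁) (p₂ : Prime F₂) (m₁ : F₁ ∈ P₁) (m₂ : F₂ ∈ P₂)
    (o₁ : F₂ ∉ P₁) (o₂ : F₁ ∉ P₂) (hj : f₁ + f₂ ≤ j + 2) (hQ : Qne P₁ P₂ j) :
    IsACM (P₁ ⊓ P₂) := by
  obtain ⟨G, d, hG, g₁, g₂, n₁, n₂, c⟩ := exists_G h₁ h₂ hF₁ hF₂ p₁ p₂ m₁ m₂ o₁ o₂
  obtain ⟨e, he, hfin, hP⟩ := std (F := ![F₁, F₂]) (T := ![G * F₂, G * F₁])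
    (Fin.forall_fin_two.2 ⟨p₁, p₂⟩) (Fin.forall_fin_two.2 ⟨⟨_, hF₁⟩, ⟨_, hF₂⟩⟩)
    (Fin.forall_fin_two.2 ⟨⟨_, hG.mul hF₂⟩, ⟨_, hG.mul hF₁⟩⟩) (Fin.forall_fin_two.2
      ⟨fun h ↦ (p₁.dvd_or_dvd h).elim n₁ fun ⟨c, hc⟩ ↦ o₁ (hc ▸ P₁.mul_mem_right c m₁),
        fun h ↦ (p₂.dvd_or_dvd h).elim n₂ fun ⟨c, hc⟩ ↦ o₂ (hc ▸ P₂.mul_mem_right c m₂)⟩)
  have mem {P : Ideal (S k)} {x : S k} (h : x ∈ P) : e x ∈ P.comap e.symm := by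
    rwa [Ideal.mem_comap, e.symm_apply_apply]
  have d₁ := deg_pos p₁ hF₁
  have d₂ := deg_pos p₂ hF₂
  have key := core (he.symm.intACM h₁) (he.symm.intACM h₂) (he.symm.realizes hR) (he.1 _ _ hF₁)
    (he.1 _ _ hF₂) (he.1 _ _ hG) (e := f₁ + f₂ - 2) (by omega) (mem m₁) (mem m₂) (mem g₁) (mem g₂)
    (map_mul e G F₂ ▸ hP 0) (map_mul e G F₁ ▸ hP 1)
    (fun h ↦ c (ch2_comap e h (I3_le (mem3.2 ⟨1, 0, 0, by ring⟩) (mem3.2 ⟨0, 1, 0, by ring⟩)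
      (mem3.2 ⟨0, 0, 1, by ring⟩))))
    (hfin.subset fun a ha ↦ ⟨0, ha⟩) (hfin.subset fun a ha ↦ ⟨1, ha⟩)
    (he.symm.qne (hQ.mono (by omega)))
  have := he.acm key
  rwa [show (P₁.comap e.symm ⊓ P₂.comap e.symm).comap e = P₁ ⊓ P₂ by
    ext x
    simp [Ideal.mem_comap]] at this

theorem joint [IsAlgClosed k] {P₁ P₂ : Ideal (S k)} (h₁ : IsIntACM P₁) (h₂ : IsIntACM P₂)
    (hR : Realizes P₁ P₂) {F₁ F₂ : S k} {f₁ f₂ j : ℕ} (hF₁ : F₁.IsHomogeneous f₁)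
    (hF₂ : F₂.IsHomogeneous f₂) (m₁ : F₁ ∈ P₁) (m₂ : F₂ ∈ P₂) (o₁ : F₂ ∉ P₁) (o₂ : F₁ ∉ P₂)
    (hj : f₁ + f₂ ≤ j + 2) (hQ : Qne P₁ P₂ j) : IsACM (P₁ ⊓ P₂) := by
  have z₁ : F₁ ≠ 0 := fun e ↦ o₂ (e ▸ P₂.zero_mem)
  have z₂ : F₂ ≠ 0 := fun e ↦ o₁ (e ▸ P₁.zero_mem)
  obtain ⟨G₁, p₁, d₁, g₁⟩ := exists_factor h₁.1 z₁ m₁
  obtain ⟨G₂, p₂, d₂, g₂⟩ := exists_factor h₂.1 z₂ m₂
  have l₁ := hF₁.totalDegree z₁ ▸ totalDegree_le_of_dvd_of_isDomain d₁ z₁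
  have l₂ := hF₂.totalDegree z₂ ▸ totalDegree_le_of_dvd_of_isDomain d₂ z₂
  exact joint0 h₁ h₂ hR (hom_of_dvd hF₁ z₁ p₁ d₁) (hom_of_dvd hF₂ z₂ p₂ d₂) p₁ p₂ g₁ g₂
    (fun h ↦ d₂.elim fun c hc ↦ o₁ (hc ▸ P₁.mul_mem_right c h))
    (fun h ↦ d₁.elim fun c hc ↦ o₂ (hc ▸ P₂.mul_mem_right c h)) (by omega) hQ

theorem exists_form {P : Ideal (S k)} {f : ℕ} (h : hvec P f ≤ f) :
    ∃ F : S k, F.IsHomogeneous f ∧ F ≠ 0 ∧ F ∈ P := by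
  by_contra! hc
  have key (n : ℕ) (hn : n ≤ f) : hilb P n = (n + 3).choose 3 := by
    rw [← hil_bot (k := k)]
    refine hilb_congr fun g hg ↦ ⟨fun m ↦ by_contra fun z ↦ ?_, fun m ↦ ?_⟩
    · exact hc _ (Nat.sub_add_cancel hn ▸ (X2_pow (f - n)).mul hg)
        (mul_ne_zero (pow_ne_zero _ (X_ne_zero _)) z) (P.mul_mem_left _ m)
    · exact Ideal.mem_bot.1 m ▸ P.zero_mem
  rcases f with _ | _ | f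
  · simp [hvec, key] at h
  · simp [hvec, key, Nat.choose] at h
  · have e1 := key (f + 1 + 1) le_rfl
    have e2 := key (f + 1) (by omega)
    have e3 := key f (by omega)
    simp only [hvec, le_add_iff_nonneg_left, zero_le, if_true, add_tsub_cancel_right,
      show 2 ≤ f + 1 + 1 by omega, show f + 1 + 1 - 2 = f by omega, e1, e2, e3] at h
    have a1 := Nat.choose_succ_succ' (f + 4) 2
    have a2 := Nat.choose_succ_succ' (f + 3) 2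
    have a3 := Nat.choose_succ_succ' (f + 3) 1
    simp only [Nat.choose_one_right, add_assoc, Nat.reduceAdd] at *
    omega

theorem numeric [IsAlgClosed k] {P₁ P₂ : Ideal (S k)} (h₁ : IsIntACM P₁) (h₂ : IsIntACM P₂)
    (hne : P₁ ≠ P₂) (hR : Realizes P₁ P₂) {f₁ f₂ n₁ n₂ j : ℕ} (s₁ : hvec P₁ f₁ ≤ f₁)
    (s₂ : hvec P₂ f₂ ≤ f₂) (hn₁ : hvec P₁ n₁ ≠ 0) (hn₂ : hvec P₂ n₂ ≠ 0)
    (a : f₁ ≤ n₁ + 1 ∧ f₁ ≤ n₂ + 1 ∧ f₂ ≤ n₁ + 1 ∧ f₂ ≤ n₂ + 1) (hj : f₁ + f₂ ≤ j + 2)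
    (hQ : Qne P₁ P₂ j) : IsACM (P₁ ⊓ P₂) := by
  obtain ⟨F₁, hF₁, z₁, m₁⟩ := exists_form s₁
  obtain ⟨F₂, hF₂, z₂, m₂⟩ := exists_form s₂
  by_cases o₂ : F₁ ∈ P₂
  · exact main h₁ h₂ hne hR hF₁ z₁ m₁ o₂ hn₁ hn₂ a.1 a.2.1
  by_cases o₁ : F₂ ∈ P₁
  · exact main h₁ h₂ hne hR hF₂ z₂ o₁ m₂ hn₁ hn₂ a.2.2.1 a.2.2.2
  exact joint h₁ h₂ hR hF₁ hF₂ m₁ m₂ o₁ o₂ hj hQ

end Pool.Agent.Lib.JC99
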