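import Pool.Agent.Lib.JC99.Reg
import Pool.Agent.Lib.JC99.Alg

/-! One plane section: a common multiplier for the two sets of points. -/

open MvPolynomial Module Pool.Agent.Lib.MP_d54a3f_ag

namespace Pool.Agent.Lib.JC99

universe u

variable {k : Type u} [Field k]

theorem exists_eta {J : Ideal (S k)} (hJ : Reg J (X 2)) :
    ∃ (K : Type u) (_ : CommRing K) (_ : Algebra k K) (η : S k →ₐ[k] K), η (X 2) = 1 ∧
      ∀ (s : S k) n, s.IsHomogeneous n → (η s = 0 ↔ s ∈ J) := by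
  let x := Ideal.Quotient.mk J (X 2)
  let K := Localization.Away x
  let c : S k →ₐ[k] K := (IsScalarTower.toAlgHom k (S k ⧸ J) K).comp (Ideal.Quotient.mkₐ k J)
  have hc (s : S k) : c s = algebraMap (S k ⧸ J) K (Ideal.Quotient.mk J s) := rfl
  have h1 : c (X 2) * IsLocalization.Away.invSelf x = 1 := IsLocalization.Away.mul_invSelf x
  have h2 : aeval (fun j ↦ c (X j)) = c := (aeval_unique c).symm
  refine ⟨K, inferInstance, inferInstance, aeval fun j ↦ c (X j) * IsLocalization.Away.invSelf x,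
    by rw [aeval_X, h1], fun s n hs ↦ ?_⟩
  rw [scale _ _ hs, h2, ((IsUnit.of_mul_eq_one_right _ h1).pow n).mul_left_eq_zero, hc,
    IsLocalization.map_eq_zero_iff (Submonoid.powers x)]
  constructor
  · rintro ⟨⟨_, m, rfl⟩, hm⟩
    exact hJ.pow m s (Ideal.Quotient.eq_zero_iff_mem.1 (by rw [map_mul, map_pow]; exact hm))
  · exact fun h ↦ ⟨1, by rw [Ideal.Quotient.eq_zero_iff_mem.2 h, mul_zero]⟩

theorem X2_pow (n : ℕ) : (X 2 ^ n : S k).IsHomogeneous n := by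
  simpa using (isHomogeneous_X k (2 : Fin 4)).pow n

section
variable {K : Type*} [CommRing K] [Algebra k K] {η : S k →ₐ[k] K}

theorem notV {J₁ J₂ : Ideal (S k)} (r₁ : Reg J₁ (X 2)) (r₂ : Reg J₂ (X 2)) {F : S k} {f e : ℕ}
    (hF : F.IsHomogeneous f) (m : F ∈ J₂) (hI : IsHom J₁) (hp : Prim (J₁ ⊔ Ideal.span {F}))
    (hQ : hilb (J₁ ⊔ J₂) e ≠ 0) (h1 : η (X 2) = 1)
    (hη : ∀ (s : S k) n, s.IsHomogeneous n → η s = 0 → s ∈ J₁ ∧ s ∈ J₂) :
    ∃ (s : S k) (n : ℕ) (Φ : K →ₗ[k] k), s.IsHomogeneous n ∧ Φ (η (F * s)) ≠ 0 ∧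
      ∀ t : S k, t.IsHomogeneous e → Φ (η t) = 0 := by
  suffices ∃ (s : S k) (n : ℕ), s.IsHomogeneous n ∧
      η (F * s) ∉ (homogeneousSubmodule (Fin 4) k e).map η.toLinearMap by
    obtain ⟨s, n, hs, h⟩ := this
    obtain ⟨Φ, h2, h3⟩ := Submodule.exists_dual_map_eq_bot_of_notMem h inferInstance
    exact ⟨s, n, Φ, hs, h2, fun t ht ↦ (Submodule.mem_bot k).1 (h3 ▸ ⟨_, ⟨t, ht, rfl⟩, rfl⟩)⟩
  by_contra! hc
  refine hQ (hilb_eq_zero_iff.2 fun c hc' ↦ ?_)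
  obtain ⟨N, hN⟩ := hp.deg
  have hd {t : S k} (ht : t.IsHomogeneous e) :
      (X 2 ^ (f + N) * t).IsHomogeneous (f + (N + e)) := add_assoc f N e ▸ (X2_pow _).mul ht
  obtain ⟨s, hs, h2⟩ := mem_sup_span_hom hI hF (hd hc') (hN _ (by omega) _ (hd hc'))
  obtain ⟨t, ht, h3⟩ := hc s _ hs
  obtain ⟨h4, h5⟩ := hη (F * s - X 2 ^ (f + N) * t) _ ((hF.mul hs).sub (hd ht)) (by
    rw [map_sub, ← h3, map_mul, map_pow, h1, one_pow, one_mul]
    exact sub_self _)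
  refine Submodule.mem_sup.2 ⟨c - t, r₁.pow (f + N) _ ?_, t, r₂.pow (f + N) _ ?_, by ring⟩
  · rw [mul_sub, ← sub_add_sub_cancel _ (F * s)]
    exact J₁.add_mem h2 h4
  · simpa using J₂.sub_mem (J₂.mul_mem_right s m) h5

theorem low (h1 : η (X 2) = 1) {e : ℕ} {Φ : K →ₗ[k] k}
    (hΦ : ∀ t : S k, t.IsHomogeneous e → Φ (η t) = 0) {s : S k} {n : ℕ} (hs : s.IsHomogeneous n)
    (h : n ≤ e) : Φ (η s) = 0 := by
  have := hΦ _ (Nat.sub_add_cancel h ▸ (X2_pow (e - n)).mul hs)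
  rwa [map_mul, map_pow, h1, one_pow, one_mul] at this

theorem exists_pi0 (h1 : η (X 2) = 1) {e : ℕ} {Φ : K →ₗ[k] k}
    (hΦ : ∀ t : S k, t.IsHomogeneous e → Φ (η t) = 0) : ∃ π : S k →ₗ[k] Polynomial k,
      (∀ (s : S k) n, s.IsHomogeneous n → π s = Polynomial.monomial (n - (e + 1)) (Φ (η s))) ∧
      ∀ s, π (X 2 * s) = Polynomial.X * π s := by
  let ζ : S k →ₐ[k] Polynomial K := aeval fun j ↦ Polynomial.C (η (X j)) * Polynomial.X
  have h2 : aeval (fun j ↦ Polynomial.C (η (X j))) = Polynomial.CAlgHom.comp η :=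
    (aeval_unique (Polynomial.CAlgHom.comp η)).symm
  let π : S k →ₗ[k] Polynomial k := (Polynomial.lsum fun n ↦
    (Polynomial.monomial (n - (e + 1))).comp Φ).comp ζ.toLinearMap
  have h3 (s : S k) (n : ℕ) (hs : s.IsHomogeneous n) :
      π s = Polynomial.monomial (n - (e + 1)) (Φ (η s)) := by
    have : ζ s = Polynomial.monomial n (η s) := by
      rw [scale _ _ hs, h2, ← Polynomial.C_mul_X_pow_eq_monomial]
      rfl
    simp [π, this, Polynomial.sum_monomial_index]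
  refine ⟨π, h3, fun s ↦ ?_⟩
  rw [← sum_homogeneousComponent s, Finset.mul_sum, map_sum, map_sum, Finset.mul_sum]
  refine Finset.sum_congr rfl fun n _ ↦ ?_
  have hs := homogeneousComponent_isHomogeneous n s
  rw [h3 _ _ hs, h3 _ _ ((isHomogeneous_X k 2).mul hs), map_mul, h1, one_mul,
    Polynomial.X_mul_monomial]
  rcases le_or_gt n e with h | h
  · rw [low h1 hΦ hs h, map_zero, map_zero]
  · rw [show 1 + n - (e + 1) = n - (e + 1) + 1 by omega]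

end

theorem bzS {a : k} {J : Ideal (S k)} (hw : (fr a).w ∈ J) (π : S k →ₗ[k] Polynomial k)
    (hT : ∀ s, π (X 2 * s) = Polynomial.X * π s) (hJ : ∀ p ∈ J, π p = 0)
    {F G F₁ F₂ F₃ F₄ G₁ G₂ G₃ G₄ : S k} (eF : F = X 0 * F₁ + X 3 * F₂ + X 2 * F₃ + X 1 * F₄)
    (eG : G = X 0 * G₁ + X 3 * G₂ + X 2 * G₃ + X 1 * G₄) (hF : F ∈ J) (hG : G ∈ J) :
    ∃ g, (∀ p ∈ J, g * p ∈ I3 F G (fr a).w) ∧ ∀ (s : S k) (n : ℕ),
      (∀ t, Polynomial.X ^ n ∣ π (s * t)) → (∀ t, Polynomial.X ^ (n + 1) ∣ π (s * X 0 * t)) →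
      (∀ t, Polynomial.X ^ (n + 1) ∣ π (s * X 3 * t)) →
      s * g - Polynomial.aeval (X 2) (π s) * (F₁ * G₂ - F₂ * G₁) ∈
        I4 F G (fr a).w (X 2 ^ (n + 1)) := by
  let : Algebra (Polynomial k) (S k) := (Polynomial.aeval (X 2 : S k)).toRingHom.toAlgebra
  have hβ (q : Polynomial k) : algebraMap (Polynomial k) (S k) q = Polynomial.aeval (X 2) q := rfl
  let π' : S k →ₗ[Polynomial k] Polynomial k :=
    { toFun := π
      map_add' := π.map_add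
      map_smul' := fun q s ↦ by
        rw [Algebra.smul_def, hβ, RingHom.id_apply, smul_eq_mul]
        induction q using Polynomial.induction_on with
        | C c => rw [Polynomial.aeval_C, ← Algebra.smul_def, map_smul, Polynomial.smul_eq_C_mul]
        | add p q hp hq => rw [map_add, add_mul, map_add, hp, hq, add_mul]
        | monomial n c h =>
          rw [pow_succ, ← mul_assoc, map_mul (Polynomial.aeval _), Polynomial.aeval_X,
            mul_comm _ (X 2), mul_assoc, hT, h]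
          ring }
  set W := Ideal.span {(fr a).w} with hW
  have hWJ : W ≤ J := (Ideal.span_singleton_le_iff_mem _).2 hw
  let π'' : (S k ⧸ W) →ₗ[Polynomial k] Polynomial k :=
    ((W.restrictScalars (Polynomial k)).liftQ π' fun p hp ↦ hJ p (hWJ hp)).comp
      (Submodule.Quotient.restrictScalarsEquiv (Polynomial k) W).symm.toLinearMap
  set μ := Ideal.Quotient.mk W with hμ
  have hπ (s : S k) : π'' (μ s) = π s := rfl
  have hα (q : Polynomial k) :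
      algebraMap (Polynomial k) (S k ⧸ W) q = μ (Polynomial.aeval (X 2) q) := rfl
  have hl : algebraMap (Polynomial k) (S k ⧸ W) Polynomial.X = μ (X 2) := by
    rw [hα, Polynomial.aeval_X]
  have h1 : μ (X 1) = -(μ (C a) * μ (X 2)) := by
    have : μ (fr a).w = 0 := Ideal.Quotient.eq_zero_iff_mem.2 (Ideal.mem_span_singleton_self _)
    rw [fr_w, map_add, map_mul] at this
    linear_combination this
  have hgen : Algebra.adjoin (Polynomial k) {μ (X 0), μ (X 3)} = ⊤ := by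
    have hC (c : k) : μ (C c) ∈ Algebra.adjoin (Polynomial k) {μ (X 0), μ (X 3)} := by
      have := Subalgebra.algebraMap_mem (Algebra.adjoin (Polynomial k) {μ (X 0), μ (X 3)})
        (Polynomial.C c)
      rwa [hα, Polynomial.aeval_C] at this
    have h2 : μ (X 2) ∈ Algebra.adjoin (Polynomial k) {μ (X 0), μ (X 3)} :=
      hl ▸ Subalgebra.algebraMap_mem _ _
    refine eq_top_iff.2 fun z _ ↦ ?_
    obtain ⟨f, rfl⟩ := Ideal.Quotient.mk_surjective z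
    induction f using MvPolynomial.induction_on with
    | C c => exact hC c
    | add f g hf hg => exact map_add μ f g ▸ add_mem (hf trivial) (hg trivial)
    | mul_X f j hf =>
      refine map_mul μ f _ ▸ mul_mem (hf trivial) ?_
      fin_cases j
      · exact Algebra.subset_adjoin (by simp)
      · exact h1 ▸ neg_mem (mul_mem (hC a) h2)
      · exact h2
      · exact Algebra.subset_adjoin (by simp)
  obtain ⟨g, g1, g2⟩ := bz (J.map μ) π'' (fun p hp ↦ by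
      obtain ⟨q, hq, rfl⟩ := (Ideal.mem_map_iff_of_surjective μ Ideal.Quotient.mk_surjective).1 hp
      exact hJ q hq) hgen Polynomial.X (F₁ := μ F₁) (F₂ := μ F₂) (F₃ := μ (F₃ - C a * F₄))
    (G₁ := μ G₁) (G₂ := μ G₂) (G₃ := μ (G₃ - C a * G₄)) (F := μ F) (G := μ G)
    (by rw [hl, eF]; simp only [map_add, map_mul, map_sub, h1]; ring)
    (by rw [hl, eG]; simp only [map_add, map_mul, map_sub, h1]; ring)
    (Ideal.mem_map_of_mem μ hF) (Ideal.mem_map_of_mem μ hG)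
  obtain ⟨g, rfl⟩ := Ideal.Quotient.mk_surjective g
  refine ⟨g, fun p hp ↦ ?_, fun s n t1 t2 t3 ↦ ?_⟩
  · obtain ⟨α, β, h⟩ := g1 _ (Ideal.mem_map_of_mem μ hp)
    obtain ⟨α, rfl⟩ := Ideal.Quotient.mk_surjective α
    obtain ⟨β, rfl⟩ := Ideal.Quotient.mk_surjective β
    obtain ⟨c, hc⟩ := Ideal.mem_span_singleton'.1 (Ideal.Quotient.eq.1
      (show μ (g * p) = μ (α * F + β * G) by simpa only [map_add, map_mul] using h))
    exact mem3.2 ⟨α, β, c, by linear_combination -hc⟩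
  · obtain ⟨α, β, γ, h⟩ := g2 (μ s) n
      (fun t ↦ by obtain ⟨t, rfl⟩ := Ideal.Quotient.mk_surjective t; exact t1 t)
      (fun t ↦ by obtain ⟨t, rfl⟩ := Ideal.Quotient.mk_surjective t; exact t2 t)
      (fun t ↦ by obtain ⟨t, rfl⟩ := Ideal.Quotient.mk_surjective t; exact t3 t)
    obtain ⟨α, rfl⟩ := Ideal.Quotient.mk_surjective α
    obtain ⟨β, rfl⟩ := Ideal.Quotient.mk_surjective β
    obtain ⟨γ, rfl⟩ := Ideal.Quotient.mk_surjective γ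
    rw [hl, hπ, hα] at h
    obtain ⟨c, hc⟩ := Ideal.mem_span_singleton'.1 (Ideal.Quotient.eq.1
      (show μ (s * g) = μ (Polynomial.aeval (X 2) (π s) * (F₁ * G₂ - F₂ * G₁) + α * F + β * G +
        γ * X 2 ^ (n + 1)) by simpa only [map_add, map_mul, map_sub, map_pow] using h))
    exact mem4.2 ⟨α, β, c, γ, by linear_combination -hc⟩

theorem dec {F : S k} {n : ℕ} (hF : F.IsHomogeneous (n + 1)) : ∃ a b c d : S k,
    a.IsHomogeneous n ∧ b.IsHomogeneous n ∧ F = X 0 * a + X 3 * b + X 2 * c + X 1 * d := by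
  obtain ⟨a, b, c, d, h⟩ := mem4.1 (mm_le (Q := I4 (X 0) (X 3) (X 2) (X 1)) (fun i ↦ by
    fin_cases i
    exacts [mem4.2 ⟨1, 0, 0, 0, by simp⟩, mem4.2 ⟨0, 0, 0, 1, by simp⟩,
      mem4.2 ⟨0, 0, 1, 0, by simp⟩, mem4.2 ⟨0, 1, 0, 0, by simp⟩])
    (hom_mem_mm hF n.succ_ne_zero))
  have := congrArg (homogeneousComponent (1 + n)) h
  simp only [map_add, mul_comm _ (X _), comp_mul (isHomogeneous_X k _)] at this
  rw [comp_self (add_comm n 1 ▸ hF)] at this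
  exact ⟨_, _, _, _, homogeneousComponent_isHomogeneous _ _,
    homogeneousComponent_isHomogeneous _ _, this⟩

theorem wiebeS {F G F₁ F₂ F₃ F₄ G₁ G₂ G₃ G₄ : S k}
    (eF : F = X 0 * F₁ + X 3 * F₂ + X 2 * F₃ + X 1 * F₄)
    (eG : G = X 0 * G₁ + X 3 * G₂ + X 2 * G₃ + X 1 * G₄) (h : PL F G) (hG : G ∈ mm k) :
    F₁ * G₂ - F₂ * G₁ ∉ I4 F G (X 1) (X 2) := by
  intro hm
  set μ := Ideal.Quotient.mk (LL k) with hμ
  have h1 : μ (X 1) = 0 := Ideal.Quotient.eq_zero_iff_mem.2 (mem2.2 ⟨1, 0, by ring⟩)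
  have h2 : μ (X 2) = 0 := Ideal.Quotient.eq_zero_iff_mem.2 (mem2.2 ⟨0, 1, by ring⟩)
  obtain ⟨α, β, γ, δ, e⟩ := mem4.1 hm
  obtain ⟨a, b, e'⟩ := wiebe (x := μ (X 0)) (y := μ (X 3)) (F₁ := μ F₁) (F₂ := μ F₂) (G₁ := μ G₁)
    (G₂ := μ G₂) (F := μ F) (G := μ G) (α := μ α) (β := μ β) (by simp [eF, h1, h2])
    (by simp [eG, h1, h2]) (fun u hu ↦ by
      obtain ⟨u, rfl⟩ := Ideal.Quotient.mk_surjective u
      exact Ideal.Quotient.eq_zero_iff_mem.2 (regL (h.notL hG) u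
        (Ideal.Quotient.eq_zero_iff_mem.1 hu))) (fun u v huv ↦ by
      obtain ⟨u, rfl⟩ := Ideal.Quotient.mk_surjective u
      obtain ⟨v, rfl⟩ := Ideal.Quotient.mk_surjective v
      obtain ⟨c, hc⟩ := mem_sup_span.1 (h.reg hG u (mem_sup_span.2 ⟨v, Ideal.Quotient.eq.1 (by
        rw [mul_comm G, mul_comm F]; exact huv)⟩))
      exact ⟨μ c, Ideal.Quotient.eq.2 hc⟩) (by simpa [h1, h2] using congrArg μ e)
  obtain ⟨a, rfl⟩ := Ideal.Quotient.mk_surjective a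
  obtain ⟨b, rfl⟩ := Ideal.Quotient.mk_surjective b
  have h3 := LL_le (Ideal.Quotient.eq.1 (show μ 1 = μ (X 0 * a + X 3 * b) from e'))
  simp [mem_mm] at h3

theorem col_comp {I P : Ideal (S k)} (hI : IsHom I) (hP : IsHom P) {g : S k}
    (h : ∀ p ∈ P, g * p ∈ I) (d : ℕ) : ∀ p ∈ P, homogeneousComponent d g * p ∈ I := by
  intro p hp
  rw [← sum_homogeneousComponent p, Finset.mul_sum]
  refine Ideal.sum_mem _ fun n _ ↦ ?_
  have := hI _ (h _ (hP p hp n)) (n + d)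
  rwa [mul_comm g, comp_mul (homogeneousComponent_isHomogeneous n p),
    mul_comm (homogeneousComponent n p)] at this

theorem plane {a : k} {J₁ J₂ : Ideal (S k)} (i₁ : IsHom J₁) (i₂ : IsHom J₂) (w₁ : (fr a).w ∈ J₁)
    (w₂ : (fr a).w ∈ J₂) (r₁ : Reg J₁ (X 2)) (r₂ : Reg J₂ (X 2)) {F₁ F₂ G : S k} {f₁ f₂ e d : ℕ}
    (hF₁ : F₁.IsHomogeneous f₁) (hF₂ : F₂.IsHomogeneous f₂) (hG : G.IsHomogeneous (d + 1))
    (he : f₁ + f₂ = e + 2) (m₁ : F₁ ∈ J₁) (m₂ : F₂ ∈ J₂) (g₁ : G ∈ J₁) (g₂ : G ∈ J₂)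
    (p₁ : Prim (J₁ ⊔ Ideal.span {F₂})) (p₂ : Prim (J₂ ⊔ Ideal.span {F₁}))
    (hQ : hilb (J₁ ⊔ J₂) e ≠ 0) (hPL : PL (F₁ * F₂) G) :
    ∃ G' : S k, G'.IsHomogeneous d ∧ G' ∉ Ideal.span {F₁} ⊔ Ideal.span {(fr a).w} ∧
      G' ∉ Ideal.span {F₂} ⊔ Ideal.span {(fr a).w} ∧
      ∀ q ∈ J₁ ⊓ J₂, G' * q ∈ I3 (F₁ * F₂) G (fr a).w := by
  obtain ⟨K, _, _, η, h1, hη⟩ := exists_eta (J := J₁ ⊓ J₂) fun f hf ↦ ⟨r₁ f hf.1, r₂ f hf.2⟩
  obtain ⟨s₁, n₁, Φ₁, a₁, b₁, c₁⟩ := notV r₁ r₂ hF₂ m₂ i₁ p₁ hQ h1 fun s n hs h ↦ (hη s n hs).1 h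
  obtain ⟨s₂, n₂, Φ₂, a₂, b₂, c₂⟩ := notV r₂ r₁ hF₁ m₁ i₂ p₂ (sup_comm J₁ J₂ ▸ hQ) h1
    fun s n hs h ↦ ((hη s n hs).1 h).symm
  obtain ⟨Φ, b₁, b₂, hΦ⟩ : ∃ Φ : K →ₗ[k] k, Φ (η (F₂ * s₁)) ≠ 0 ∧ Φ (η (F₁ * s₂)) ≠ 0 ∧
      ∀ t : S k, t.IsHomogeneous e → Φ (η t) = 0 := by
    by_cases h2 : Φ₁ (η (F₁ * s₂)) = 0
    · by_cases h3 : Φ₂ (η (F₂ * s₁)) = 0
      · exact ⟨Φ₁ + Φ₂, by rwa [LinearMap.add_apply, h3, add_zero],
          by rwa [LinearMap.add_apply, h2, zero_add],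
          fun t ht ↦ by rw [LinearMap.add_apply, c₁ t ht, c₂ t ht, add_zero]⟩
      · exact ⟨Φ₂, h3, b₂, c₂⟩
    · exact ⟨Φ₁, b₁, h2, c₁⟩
  obtain ⟨π, hπ, hT⟩ := exists_pi0 h1 hΦ
  have hF : (F₁ * F₂).IsHomogeneous (e + 1 + 1) := (show f₁ + f₂ = e + 1 + 1 from he) ▸ hF₁.mul hF₂
  have hGm := hom_mem_mm hG d.succ_ne_zero
  obtain ⟨A₁, A₂, A₃, A₄, u₁, u₂, eF⟩ := dec hF
  obtain ⟨B₁, B₂, B₃, B₄, v₁, v₂, eG⟩ := dec hG
  have hJ := i₁.inf i₂
  obtain ⟨g, g1, g2⟩ := bzS (J := J₁ ⊓ J₂) ⟨w₁, w₂⟩ π hT (fun p hp ↦ by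
      rw [← sum_homogeneousComponent p, map_sum]
      refine Finset.sum_eq_zero fun n _ ↦ ?_
      have hs := homogeneousComponent_isHomogeneous n p
      rw [hπ _ _ hs, (hη _ _ hs).2 (hJ p hp n), map_zero, map_zero]) eF eG
    ⟨J₁.mul_mem_right _ m₁, J₂.mul_mem_left _ m₂⟩ ⟨g₁, g₂⟩
  have hdiv {s : S k} {m : ℕ} (hs : s.IsHomogeneous m) (t : S k) :
      Polynomial.X ^ (m - (e + 1)) ∣ π (s * t) := by
    rw [← sum_homogeneousComponent t, Finset.mul_sum, map_sum]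
    refine Finset.dvd_sum fun n _ ↦ ?_
    rw [hπ _ _ (hs.mul (homogeneousComponent_isHomogeneous n t)),
      ← Polynomial.C_mul_X_pow_eq_monomial]
    exact (pow_dvd_pow _ (by omega)).mul_left _
  have hI := I3_hom hF hG (fr a).w_hom
  have key {s : S k} {m : ℕ} (hs : s.IsHomogeneous m) (h : Φ (η s) ≠ 0) :
      s * homogeneousComponent d g ∉ I3 (F₁ * F₂) G (fr a).w := by
    intro hm
    obtain ⟨n, rfl⟩ : ∃ n, m = n + (e + 1) :=
      ⟨m - (e + 1), by have : ¬ m ≤ e := fun z ↦ h (low h1 hΦ hs z); omega⟩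
    have h2 := g2 s n (by simpa using hdiv hs)
      (fun t ↦ (show n + (e + 1) + 1 - (e + 1) = n + 1 by omega) ▸
        hdiv (hs.mul (isHomogeneous_X k 0)) t)
      (fun t ↦ (show n + (e + 1) + 1 - (e + 1) = n + 1 by omega) ▸
        hdiv (hs.mul (isHomogeneous_X k 3)) t)
    rw [hπ _ _ hs, Nat.add_sub_cancel, Polynomial.aeval_monomial, algebraMap_eq] at h2
    have h3 := (hI.sup (isHom_span1 (X2_pow (n + 1)))) _ h2 (n + (e + 1) + d)
    rw [map_sub, comp_mul hs, add_assoc,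
      comp_self (((X2_pow n).C_mul _).mul ((u₁.mul v₂).sub (u₂.mul v₁)))] at h3
    obtain ⟨γ, hγ⟩ := mem_sup_span.1 h3
    have h4 := (hPL.regl hGm a).pow n (C (Φ (η s)) * (A₁ * B₂ - A₂ * B₁) + X 2 * γ) (by
      have := Ideal.sub_mem _ hm hγ
      rwa [show s * homogeneousComponent d g - (s * homogeneousComponent d g -
        C (Φ (η s)) * X 2 ^ n * (A₁ * B₂ - A₂ * B₁) - X 2 ^ (n + 1) * γ) =
        X 2 ^ n * (C (Φ (η s)) * (A₁ * B₂ - A₂ * B₁) + X 2 * γ) by ring] at this)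
    refine wiebeS eF eG hPL hGm ?_
    rw [← Ideal.unit_mul_mem_iff_mem _ ((IsUnit.mk0 _ h).map C)]
    obtain ⟨α, β, δ, e'⟩ := mem3.1 h4
    exact mem4.2 ⟨α, β, δ, δ * C a - γ, by rw [fr_w] at e'; linear_combination e'⟩
  refine ⟨_, homogeneousComponent_isHomogeneous d g, fun h ↦ key (hF₂.mul a₁) b₁ ?_,
    fun h ↦ key (hF₁.mul a₂) b₂ ?_, col_comp hI hJ g1 d⟩
  · obtain ⟨α, β, e'⟩ := mem2.1 h
    exact mem3.2 ⟨s₁ * α, 0, F₂ * s₁ * β, by rw [e']; ring⟩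
  · obtain ⟨α, β, e'⟩ := mem2.1 h
    exact mem3.2 ⟨s₂ * α, 0, F₁ * s₂ * β, by rw [e']; ring⟩

end Pool.Agent.Lib.JC99
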