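import Pool.Agent.Lib.JC99.Defs

/-! Regular elements, saturation and general position for complete intersections. -/

open MvPolynomial Module Pool.Agent.Lib.MP_d54a3f_ag

namespace Pool.Agent.Lib.JC99

theorem mem2 {R : Type*} [CommRing R] {a b f : R} :
    f ∈ Ideal.span {a} ⊔ Ideal.span {b} ↔ ∃ α β, f = α * a + β * b := by
  simp only [Submodule.mem_sup, Ideal.mem_span_singleton']
  exact ⟨fun ⟨_, ⟨α, h1⟩, _, ⟨β, h2⟩, h⟩ ↦ ⟨α, β, by rw [h1, h2, h]⟩,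
    fun ⟨α, β, h⟩ ↦ ⟨_, ⟨α, rfl⟩, _, ⟨β, rfl⟩, h.symm⟩⟩

theorem mem3' {R : Type*} [CommRing R] {a b c f : R} :
    f ∈ (Ideal.span {a} ⊔ Ideal.span {b}) ⊔ Ideal.span {c} ↔
      ∃ α β γ, f = α * a + β * b + γ * c := by
  rw [Submodule.mem_sup]
  simp only [mem2, Ideal.mem_span_singleton']
  exact ⟨fun ⟨_, ⟨α, β, h1⟩, _, ⟨γ, h2⟩, h⟩ ↦ ⟨α, β, γ, by rw [← h1, h2, h]⟩,
    fun ⟨α, β, γ, h⟩ ↦ ⟨_, ⟨α, β, rfl⟩, _, ⟨γ, rfl⟩, h.symm⟩⟩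

variable {k : Type*} [Field k]

theorem mem3 {a b c f : S k} : f ∈ I3 a b c ↔ ∃ α β γ, f = α * a + β * b + γ * c := mem3'

theorem mem4 {a b c d f : S k} :
    f ∈ I4 a b c d ↔ ∃ α β γ δ, f = α * a + β * b + γ * c + δ * d := by
  rw [I4, Submodule.mem_sup]
  simp only [mem3, Ideal.mem_span_singleton']
  exact ⟨fun ⟨_, ⟨α, β, γ, h1⟩, _, ⟨δ, h2⟩, h⟩ ↦ ⟨α, β, γ, δ, by rw [← h1, h2, h]⟩,
    fun ⟨α, β, γ, δ, h⟩ ↦ ⟨_, ⟨α, β, γ, rfl⟩, _, ⟨δ, rfl⟩, h.symm⟩⟩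

theorem I3_le {a b c : S k} {I : Ideal (S k)} (ha : a ∈ I) (hb : b ∈ I) (hc : c ∈ I) :
    I3 a b c ≤ I := fun f hf ↦ by
  obtain ⟨α, β, γ, rfl⟩ := mem3.1 hf
  exact I.add_mem (I.add_mem (I.mul_mem_left _ ha) (I.mul_mem_left _ hb)) (I.mul_mem_left _ hc)

theorem I4_le {a b c d : S k} {I : Ideal (S k)} (ha : a ∈ I) (hb : b ∈ I) (hc : c ∈ I)
    (hd : d ∈ I) : I4 a b c d ≤ I :=
  sup_le (I3_le ha hb hc) ((Ideal.span_singleton_le_iff_mem _).2 hd)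

theorem I3_hom {a b c : S k} {l m n : ℕ} (ha : a.IsHomogeneous l) (hb : b.IsHomogeneous m)
    (hc : c.IsHomogeneous n) : IsHom (I3 a b c) :=
  ((isHom_span1 ha).sup (isHom_span1 hb)).sup (isHom_span1 hc)

/-- regular elements -/
def Reg (I : Ideal (S k)) (a : S k) : Prop := ∀ f, a * f ∈ I → f ∈ I

theorem Reg.swap {I : Ideal (S k)} {a b : S k} (h1 : Reg I a) (h2 : Reg (I ⊔ Ideal.span {a}) b) :
    Reg (I ⊔ Ideal.span {b}) a := by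
  intro f hf
  obtain ⟨g, hg⟩ := mem_sup_span.1 hf
  obtain ⟨u, hu⟩ := mem_sup_span.1 (h2 g (mem_sup_span.2 ⟨f, by
    rw [← neg_sub]; exact I.neg_mem hg⟩))
  refine mem_sup_span.2 ⟨u, h1 _ ?_⟩
  rw [show a * (f - b * u) = a * f - b * g + b * (g - a * u) by ring]
  exact I.add_mem hg (I.mul_mem_left b hu)

theorem Reg.pow {I : Ideal (S k)} {a : S k} (h : Reg I a) (n : ℕ) : Reg I (a ^ n) := by
  induction n with
  | zero => exact fun f hf ↦ by simpa using hf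
  | succ n ih => exact fun f hf ↦ h f (ih _ (by rwa [← mul_assoc, ← pow_succ]))

theorem Reg.sat {I : Ideal (S k)} {i : Fin 4} (h : Reg I (X i)) : Sat I := fun u hu ↦ h u (hu i)

theorem sat_reg {I : Ideal (S k)} (h : Sat I) {D : S k} (hp : Prim (I ⊔ Ideal.span {D})) :
    Reg I D := fun f hf ↦ h.mem (hp.mono (sup_le (le_col I f)
      ((Ideal.span_singleton_le_iff_mem _).2 (mem_col.2 (mul_comm f D ▸ hf)))))

theorem satsec {I : Ideal (S k)} {w a b : S k} (hw : Reg I w) (ha : a ∈ mm k) (hb : b ∈ mm k)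
    (h1 : Reg I a) (h2 : Reg (I ⊔ Ideal.span {a}) b) : Sat (I ⊔ Ideal.span {w}) := by
  intro u hu
  obtain ⟨v1, hv1⟩ := mem_sup_span.1 (mul_mem_of_mm hu ha)
  obtain ⟨v2, hv2⟩ := mem_sup_span.1 (mul_mem_of_mm hu hb)
  have h3 : w * (b * v1 - a * v2) ∈ I := by
    rw [show w * (b * v1 - a * v2) = a * (b * u - w * v2) - b * (a * u - w * v1) by ring]
    exact I.sub_mem (I.mul_mem_left a hv2) (I.mul_mem_left b hv1)
  obtain ⟨v, hv⟩ := mem_sup_span.1 (h2 v1 (mem_sup_span.2 ⟨v2, hw _ h3⟩))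
  refine mem_sup_span.2 ⟨v, h1 _ ?_⟩
  rw [show a * (u - w * v) = a * u - w * v1 + w * (v1 - a * v) by ring]
  exact I.add_mem hv1 (I.mul_mem_left w hv)

/-- the axis of the pencil -/
noncomputable def LL (k : Type*) [Field k] : Ideal (S k) := Ideal.span {X 1} ⊔ Ideal.span {X 2}

/-- restriction to the axis -/
noncomputable def ρ : S k →ₐ[k] S k := aeval ![X 0, 0, 0, X 3]

theorem sub_rho (f : S k) : f - ρ f ∈ LL k := by
  induction f using MvPolynomial.induction_on with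
  | C a => simp [ρ]
  | add p q hp hq =>
    rw [map_add, add_sub_add_comm]
    exact Ideal.add_mem _ hp hq
  | mul_X p i hp =>
    rw [map_mul, show p * X i - ρ p * ρ (X i) = (p - ρ p) * X i + ρ p * (X i - ρ (X i)) by ring]
    refine Ideal.add_mem _ (Ideal.mul_mem_right _ _ hp) (Ideal.mul_mem_left _ _ ?_)
    fin_cases i
    · simp [ρ]
    · exact mem2.2 ⟨1, 0, by simp [ρ]⟩
    · exact mem2.2 ⟨0, 1, by simp [ρ]⟩
    · simp [ρ]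

theorem mem_LL {f : S k} : f ∈ LL k ↔ ρ f = 0 := by
  refine ⟨fun h ↦ ?_, fun h ↦ by simpa [h] using sub_rho f⟩
  obtain ⟨α, β, rfl⟩ := mem2.1 h
  simp [ρ]

theorem LL_prime : (LL k).IsPrime := by
  have : LL k = RingHom.ker (ρ : S k →ₐ[k] S k) := Ideal.ext fun _ ↦ mem_LL
  rw [this]
  exact RingHom.ker_isPrime _

theorem LL_le : LL k ≤ mm k := fun f hf ↦ by
  obtain ⟨α, β, rfl⟩ := mem2.1 hf
  exact Ideal.add_mem _ (Ideal.mul_mem_left _ _ (X_mem_mm 1)) (Ideal.mul_mem_left _ _ (X_mem_mm 2))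

theorem regL {A : S k} (h : A ∉ LL k) : Reg (LL k) A :=
  fun _ hf ↦ (LL_prime.mem_or_mem hf).resolve_left h

theorem X0_LL : (X 0 : S k) ∉ LL k := by simp [mem_LL, ρ]

theorem satL {A : S k} (h : A ∉ LL k) : Sat (LL k ⊔ Ideal.span {A}) := by
  refine satsec (regL h) (X_mem_mm 0) (X_mem_mm 3) (regL X0_LL) fun f hf ↦ ?_
  obtain ⟨g, hg⟩ := mem_sup_span.1 hf
  have h1 : X 3 * ρ f = X 0 * ρ g := by simpa [ρ, sub_eq_zero] using mem_LL.1 hg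
  obtain ⟨c, hc⟩ := ((X_prime (i := 0)).dvd_or_dvd ⟨_, h1⟩).resolve_left (by simp [X_dvd_X])
  exact mem_sup_span.2 ⟨c, hc ▸ sub_rho f⟩

theorem ne_top_of_le {I : Ideal (S k)} (h : I ≤ mm k) : I ≠ ⊤ :=
  fun e ↦ mm_prime.ne_top (top_le_iff.1 (e ▸ h))

/-- the curve `A = B = 0` misses the axis -/
def PL (A B : S k) : Prop := Prim (I4 A B (X 1) (X 2))

theorem I4_LL (A B : S k) : I4 A B (X 1) (X 2) = (LL k ⊔ Ideal.span {A}) ⊔ Ideal.span {B} := by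
  unfold I4 I3 LL
  ac_rfl

theorem PL.symm {A B : S k} (h : PL A B) : PL B A := by
  unfold PL I4 I3 at *
  rwa [sup_comm (Ideal.span {B})]

theorem PL.prim {A B : S k} (h : PL A B) {I : Ideal (S k)} (hA : A ∈ I) (hB : B ∈ I)
    (h1 : X 1 ∈ I) (h2 : X 2 ∈ I) : Prim I := Prim.mono h (I4_le hA hB h1 h2)

theorem PL.of_mul {A B C : S k} (h : PL A (B * C)) : PL A B :=
  h.prim (mem4.2 ⟨1, 0, 0, 0, by ring⟩) (mem4.2 ⟨0, C, 0, 0, by ring⟩)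
    (mem4.2 ⟨0, 0, 1, 0, by ring⟩) (mem4.2 ⟨0, 0, 0, 1, by ring⟩)

theorem PL.mul {A B C : S k} (h : PL A B) (h' : PL A C) : PL A (B * C) := by
  intro i
  obtain ⟨m, hm⟩ := h i
  obtain ⟨n, hn⟩ := h' i
  obtain ⟨a, b, c, d, e⟩ := mem4.1 hm
  obtain ⟨a', b', c', d', e'⟩ := mem4.1 hn
  exact ⟨m + n, mem4.2 ⟨a * X i ^ n + b * B * a', b * b', c * X i ^ n + b * B * c',
    d * X i ^ n + b * B * d', by rw [pow_add, e]; linear_combination (b * B) * e'⟩⟩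

theorem PL.notL {A B : S k} (h : PL A B) (hB : B ∈ mm k) : A ∉ LL k := by
  intro hA
  have h1 : Prim (LL k ⊔ Ideal.span {B}) := h.prim (Ideal.mem_sup_left hA) (mem_sup_span_self _ _)
    (Ideal.mem_sup_left (mem2.2 ⟨1, 0, by ring⟩)) (Ideal.mem_sup_left (mem2.2 ⟨0, 1, by ring⟩))
  by_cases hc : B ∈ LL k
  · rw [sup_eq_left.2 ((Ideal.span_singleton_le_iff_mem _).2 hc)] at h1
    exact X0_LL (LL_prime.radical.le (h1 0))
  · exact (satL hc).not_prim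
      (ne_top_of_le (sup_le LL_le ((Ideal.span_singleton_le_iff_mem _).2 hB))) h1

theorem PL.reg {A B : S k} (h : PL A B) (hB : B ∈ mm k) : Reg (LL k ⊔ Ideal.span {A}) B :=
  sat_reg (satL (h.notL hB)) (I4_LL A B ▸ h)

theorem LL_w (a : k) : Ideal.span {(fr a).w} ⊔ Ideal.span {X 2} = LL k := by
  ext f
  simp only [LL, mem2, fr_w]
  exact ⟨fun ⟨α, β, h⟩ ↦ ⟨α, β + α * C a, by rw [h]; ring⟩,
    fun ⟨α, β, h⟩ ↦ ⟨α, β - α * C a, by rw [h]; ring⟩⟩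

theorem w_LL (a : k) : (fr a).w ∈ LL k :=
  LL_w a ▸ Ideal.mem_sup_left (Ideal.mem_span_singleton_self _)

theorem X1_mem {I : Ideal (S k)} {a : k} (h1 : (fr a).w ∈ I) (h2 : X 2 ∈ I) : X 1 ∈ I := by
  simpa [fr_w] using I.sub_mem h1 (I.mul_mem_left (C a) h2)

theorem reg_w (a : k) : Reg (Ideal.span {(fr a).w}) (X 2) := by
  intro f hf
  obtain ⟨c, hc⟩ := Ideal.mem_span_singleton'.1 hf
  obtain ⟨e, rfl⟩ := ((X_prime (i := 2)).dvd_or_dvd ⟨_, hc⟩).resolve_right fun ⟨e, he⟩ ↦ by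
    simpa [fr_w] using congrArg (eval ![0, 1, 0, 0]) he
  exact Ideal.mem_span_singleton'.2 ⟨e, mul_left_cancel₀ (X_ne_zero 2) (by rw [← hc]; ring)⟩

theorem PL.regl {A B : S k} (h : PL A B) (hB : B ∈ mm k) (a : k) :
    Reg (I3 A B (fr a).w) (X 2) := by
  have h1 := (reg_w a).swap (LL_w a ▸ regL (h.notL hB))
  have h2 := h1.swap (b := B) (by rw [sup_right_comm, LL_w]; exact h.reg hB)
  rwa [show I3 A B (fr a).w = (Ideal.span {(fr a).w} ⊔ Ideal.span {A}) ⊔ Ideal.span {B} by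
    unfold I3; ac_rfl]

theorem PL.notw {A B : S k} (h : PL A B) (hA : A ∈ mm k) (hB : B ∈ mm k) (a : k) :
    B ∉ Ideal.span {A} ⊔ Ideal.span {(fr a).w} := fun e ↦
  ne_top_of_le (sup_le LL_le ((Ideal.span_singleton_le_iff_mem _).2 hA))
    ((Ideal.eq_top_iff_one _).2 (h.reg hB 1 (by
      rw [mul_one]
      exact sup_le le_sup_right
        (((Ideal.span_singleton_le_iff_mem _).2 (w_LL a)).trans le_sup_left) e)))

theorem PL.w_notin {A B : S k} (h : PL A B) {P : Ideal (S k)} (hP : IsIntACM P) (hA : A ∈ P)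
    (hB : B ∈ P) (a : k) : (fr a).w ∉ P := by
  intro hw
  by_cases h2 : X 2 ∈ P
  · obtain ⟨i, hi⟩ := hP.exists_X
    exact hi (hP.1.radical.le (h.prim hA hB (X1_mem hw h2) h2 i))
  · exact (hP.sat h2).not_prim (hP.sec_ne_top (isHomogeneous_X k 2))
      (h.prim (Ideal.mem_sup_left hA) (Ideal.mem_sup_left hB)
        (X1_mem (Ideal.mem_sup_left hw) (mem_sup_span_self _ _)) (mem_sup_span_self _ _))

theorem PL.regP {A B : S k} (h : PL A B) {P : Ideal (S k)} (hP : IsIntACM P) (hA : A ∈ P)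
    (hB : B ∈ P) (a : k) : Reg (P ⊔ Ideal.span {(fr a).w}) (X 2) :=
  sat_reg (hP.sat (h.w_notin hP hA hB a)) (h.prim (Ideal.mem_sup_left (Ideal.mem_sup_left hA))
    (Ideal.mem_sup_left (Ideal.mem_sup_left hB))
    (X1_mem (Ideal.mem_sup_left (mem_sup_span_self _ _)) (mem_sup_span_self _ _))
    (mem_sup_span_self _ _))

theorem prim_fin {I : Ideal (S k)} (hI : IsHom I) (h2 : ¬ Ch2 I) {A B : S k} (h : PL A B)
    (hA : A ∈ I) (hB : B ∈ I) : {a : k | ¬ Prim (I ⊔ Ideal.span {(fr a).w})}.Finite := by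
  refine (avoid (mp_fin I) (x := X 1) (y := X 2) fun Q hQ k1 k2 ↦ ?_).subset fun a ha ↦ ?_
  · obtain ⟨i, hi⟩ := hQ.2
    exact hi (hQ.1.1.1.radical.le (h.prim (hQ.1.1.2 hA) (hQ.1.1.2 hB) k1 k2 i))
  · obtain ⟨Q, hQ, h3, h4⟩ := exists_prime_of_not_prim (hI.sup (isHom_span1 (fr a).w_hom)) ha
    obtain ⟨Q0, h5, h6⟩ := Ideal.exists_minimalPrimes_le (le_sup_left.trans h3)
    refine ⟨Q0, ⟨h5, by_contra fun hc ↦ ?_⟩, by_contra fun hc ↦ h2 ⟨Q0, Q, mm k, h5.1.1, hQ,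
      mm_prime, h5.1.2, lt_of_le_of_ne h6 fun e ↦ hc ?_, h4⟩⟩
    · push Not at hc
      exact h4.not_ge ((mm_le hc).trans h6)
    · rw [e, ← fr_w]
      exact h3 (mem_sup_span_self _ _)

theorem hom_zero_mm {f : S k} (hf : f.IsHomogeneous 0) (h : f ∈ mm k) : f = 0 := by
  rw [← comp_self hf, homogeneousComponent_zero, ← constantCoeff_eq, mem_mm.1 h, map_zero]

theorem hom_avoid [Infinite k] {P : Ideal (S k)} (hP : IsHom P) (hm : P ≤ mm k)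
    {𝒬 : Set (Ideal (S k))} (hf : 𝒬.Finite) (h : ∀ Q ∈ 𝒬, Q.IsPrime ∧ ¬ P ≤ Q) :
    ∃ (g : S k) (d : ℕ), g.IsHomogeneous (d + 1) ∧ g ∈ P ∧ ∀ Q ∈ 𝒬, g ∉ Q := by
  induction 𝒬, hf using Set.Finite.induction_on with
  | empty => exact ⟨0, 0, isHomogeneous_zero _ _ _, P.zero_mem, by simp⟩
  | @insert Q 𝒬 _ hf ih =>
    obtain ⟨g, d, h1, h2, h3⟩ := ih fun Q hQ ↦ h Q (Or.inr hQ)
    obtain ⟨hQ, hle⟩ := h Q (Or.inl rfl)
    obtain ⟨u, e, hu, hu1, hu2⟩ : ∃ (u : S k) (e : ℕ), u.IsHomogeneous (e + 1) ∧ u ∈ P ∧ u ∉ Q := by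
      by_contra! hc
      refine hle fun f hf ↦ IsHom.mem_of_comp fun n ↦ ?_
      rcases n with _ | n
      · rw [hom_zero_mm (homogeneousComponent_isHomogeneous 0 f) (hm (hP f hf 0))]
        exact Q.zero_mem
      · exact hc _ n (homogeneousComponent_isHomogeneous _ f) (hP f hf _)
    obtain ⟨b, hb⟩ := (avoid (hf.insert Q) (x := g ^ (e + 1)) (y := u ^ (d + 1))
      fun Q' hQ' k1 k2 ↦ hQ'.elim (fun e ↦ hu2 (hQ.mem_of_pow_mem _ (e ▸ k2))) fun hQ' ↦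
        h3 Q' hQ' ((h Q' (Or.inr hQ')).1.mem_of_pow_mem _ k1)).exists_notMem
    refine ⟨g ^ (e + 1) + C b * u ^ (d + 1), d * e + d + e, IsHomogeneous.add ?_ ?_,
      P.add_mem (P.pow_mem_of_mem h2 _ e.succ_pos)
        (P.mul_mem_left _ (P.pow_mem_of_mem hu1 _ d.succ_pos)), fun Q' hQ' hc ↦ hb ⟨Q', hQ', hc⟩⟩
    · exact (show (d + 1) * (e + 1) = d * e + d + e + 1 by ring) ▸ h1.pow (e + 1)
    · exact ((show (e + 1) * (d + 1) = d * e + d + e + 1 by ring) ▸ hu.pow (d + 1)).C_mul b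

theorem hvec_zero {P : Ideal (S k)} (h : P ≠ ⊤) : hvec P 0 ≠ 0 := by
  have : hilb P 0 ≠ 0 := fun e ↦
    h ((Ideal.eq_top_iff_one _).2 (hilb_eq_zero_iff.1 e 1 (isHomogeneous_one _ _)))
  simpa [hvec] using this

theorem not_le_span [IsAlgClosed k] {P : Ideal (S k)} (hP : IsIntACM P) {F : S k} {f : ℕ}
    (hF : F.IsHomogeneous f) (hFP : F ∈ P) (h0 : F ≠ 0) : ¬ P ≤ Ideal.span {F} := by
  rcases f with _ | e
  · exact absurd (hom_zero_mm hF (hP.2.hom.le_mm hP.1.ne_top hFP)) h0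
  · exact (theta1 hP hF hFP h0 (hvec_zero hP.1.ne_top)).1

theorem exists_G [IsAlgClosed k] {P₁ P₂ : Ideal (S k)} (h₁ : IsIntACM P₁) (h₂ : IsIntACM P₂)
    {F₁ F₂ : S k} {f₁ f₂ : ℕ} (hF₁ : F₁.IsHomogeneous f₁) (hF₂ : F₂.IsHomogeneous f₂)
    (p₁ : Prime F₁) (p₂ : Prime F₂) (m₁ : F₁ ∈ P₁) (m₂ : F₂ ∈ P₂) (o₁ : F₂ ∉ P₁) (o₂ : F₁ ∉ P₂) :
    ∃ (G : S k) (d : ℕ), G.IsHomogeneous (d + 1) ∧ G ∈ P₁ ∧ G ∈ P₂ ∧ ¬ F₁ ∣ G ∧ ¬ F₂ ∣ G ∧
      ¬ Ch2 (I3 F₁ F₂ G) := by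
  have hne : P₁ ≠ P₂ := fun e ↦ o₁ (e ▸ m₂)
  have q₁ := (Ideal.span_singleton_prime p₁.ne_zero).2 p₁
  have q₂ := (Ideal.span_singleton_prime p₂.ne_zero).2 p₂
  have l₁ := (Ideal.span_singleton_le_iff_mem _).2 m₁
  have l₂ := (Ideal.span_singleton_le_iff_mem _).2 m₂
  obtain ⟨G, d, hG, hm, hQ⟩ := hom_avoid (h₁.2.hom.inf h₂.2.hom)
    (inf_le_left.trans (h₁.2.hom.le_mm h₁.1.ne_top))
    (𝒬 := {Ideal.span {F₁}, Ideal.span {F₂}} ∪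
      {Q | Q ∈ (Ideal.span {F₁} ⊔ Ideal.span {F₂}).minimalPrimes ∧ ¬ P₁ ⊓ P₂ ≤ Q})
    ((Set.toFinite _).union ((Ideal.finite_minimalPrimes_of_isNoetherianRing _ _).subset
      fun _ h ↦ h.1)) (by
      rintro Q ((rfl | rfl) | h)
      · refine ⟨q₁, fun e ↦ (q₁.inf_le.1 e).elim (not_le_span h₁ hF₁ m₁ p₁.ne_zero) fun e ↦ ?_⟩
        exact o₁ (l₁ (e m₂))
      · refine ⟨q₂, fun e ↦ (q₂.inf_le.1 e).elim (fun e ↦ ?_) (not_le_span h₂ hF₂ m₂ p₂.ne_zero)⟩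
        exact o₂ (l₂ (e m₁))
      · exact ⟨h.1.1.1, h.2⟩)
  refine ⟨G, d, hG, hm.1, hm.2, fun e ↦ hQ _ (by simp) (Ideal.mem_span_singleton.2 e),
    fun e ↦ hQ _ (by simp) (Ideal.mem_span_singleton.2 e), ?_⟩
  rintro ⟨A, B, C, hA, hB, hC, h0, h1, h2⟩
  obtain ⟨Q, h5, h6⟩ := Ideal.exists_minimalPrimes_le (le_sup_left.trans h0)
  have a₁ : F₁ ∈ Q := h5.1.2 (mem2.2 ⟨1, 0, by ring⟩)
  have a₂ : F₂ ∈ Q := h5.1.2 (mem2.2 ⟨0, 1, by ring⟩)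
  by_cases hc : P₁ ⊓ P₂ ≤ Q
  · rcases h5.1.1.inf_le.1 hc with e | e
    · exact h₁.2.ch3 ⟨P₁, A, B, C, h₁.1, hA, hB, hC, le_rfl,
        lt_of_le_of_ne (e.trans h6) fun z ↦ o₁ (z ▸ h6 a₂), h1, h2⟩
    · exact h₂.2.ch3 ⟨P₂, A, B, C, h₂.1, hA, hB, hC, le_rfl,
        lt_of_le_of_ne (e.trans h6) fun z ↦ o₂ (z ▸ h6 a₁), h1, h2⟩
  · exact not_chain5 q₁ h5.1.1 hA hB hC (bot_lt_iff_ne_bot.2 (by simpa using p₁.ne_zero))
      (lt_of_le_of_ne ((Ideal.span_singleton_le_iff_mem _).2 a₁) fun z ↦ o₁ (l₁ (z ▸ a₂)))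
      (lt_of_le_of_ne h6 fun z ↦ hQ Q (Or.inr ⟨h5, hc⟩) (z ▸ h0 (mem_sup_span_self _ _))) h1 h2

end Pool.Agent.Lib.JC99
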