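import Pool.Agent.Lib.JC99.Joint

/-! Small curves on the surfaces of the other curve. -/

open MvPolynomial Module Pool.Agent.Lib.MP_d54a3f_ag

namespace Pool.Agent.Lib.JC99

variable {k : Type*} [Field k]

theorem exists_kill [Infinite k] {w : S k} (hw : w.IsHomogeneous 1) (hw0 : w ≠ 0) :
    ∃ φ : S k →ₐ[k] S k, φ w = 0 ∧ (∀ f, f - φ f ∈ Ideal.span {w}) ∧
      ∀ l : S k, l.IsHomogeneous 1 → (φ l).IsHomogeneous 1 := by
  obtain ⟨v, hv⟩ := exists_eval_ne hw0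
  set t : S k := C (eval v w)⁻¹ * w with ht
  have key {F : S k} (hF : F.IsHomogeneous 1) :
      aeval (fun j ↦ X j - C (v j) * t) F = F - C (eval v F) * t := by
    have := hom_ind (p := fun m g ↦ g.IsHomogeneous m ∧
        (m = 1 → aeval (fun j ↦ X j - C (v j) * t) g = g - C (eval v g) * t))
      (fun c ↦ ⟨isHomogeneous_C _ c, fun e ↦ absurd e (by omega)⟩)
      (fun n ↦ ⟨isHomogeneous_zero _ _ _, fun _ ↦ by simp⟩)
      (fun n f g a b ↦ ⟨a.1.add b.1, fun e ↦ by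
        rw [map_add, a.2 e, b.2 e, map_add, map_add]; ring⟩)
      (fun n c i f a ↦ ⟨add_comm 1 n ▸ ((isHomogeneous_X k i).C_mul c).mul a.1, fun e ↦ by
        obtain rfl : n = 0 := by omega
        have h1 := (totalDegree_eq_zero_iff_eq_C (p := f)).1
          ((totalDegree_zero_iff_isHomogeneous _).2 a.1)
        rw [h1]
        simp only [map_mul, algHom_C, aeval_X, eval_C, eval_X, algebraMap_eq]
        ring⟩) hF
    exact this.2 rfl
  have tm : t ∈ Ideal.span {w} := Ideal.mul_mem_left _ _ (Ideal.mem_span_singleton_self w)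
  refine ⟨aeval fun j ↦ X j - C (v j) * t, ?_, fun f ↦ ?_, fun l hl ↦ ?_⟩
  · rw [key hw, ht, ← mul_assoc, ← map_mul, mul_inv_cancel₀ hv, map_one, one_mul, sub_self]
  · induction f using MvPolynomial.induction_on with
    | C a => simp [algHom_C]
    | add p q hp hq =>
      rw [map_add, add_sub_add_comm]
      exact Ideal.add_mem _ hp hq
    | mul_X p i hp =>
      rw [map_mul, aeval_X]
      have := Ideal.add_mem _ (Ideal.mul_mem_right (X i - C (v i) * t) _ hp)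
        (Ideal.mul_mem_left _ (p * C (v i)) tm)
      refine (congrArg (· ∈ Ideal.span {w}) ?_).mp this
      ring
  · rw [key hl]
    exact hl.sub ((hw.C_mul _).C_mul _)

theorem line_prime [Infinite k] {w l : S k} (hw : w.IsHomogeneous 1) (hw0 : w ≠ 0)
    (hl : l.IsHomogeneous 1) (hlw : l ∉ Ideal.span {w}) :
    (Ideal.span {w} ⊔ Ideal.span {l}).IsPrime := by
  obtain ⟨φ, a1, a2, a3⟩ := exists_kill hw hw0
  have z : φ l ≠ 0 := fun e ↦ hlw (by simpa [e] using a2 l)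
  obtain ⟨ψ, b1, b2, -⟩ := exists_kill (a3 l hl) z
  have m : φ l ∈ Ideal.span {w} ⊔ Ideal.span {l} := by
    have := Ideal.sub_mem _ (mem_sup_span_self (Ideal.span {w}) l) (Ideal.mem_sup_left (a2 l))
    rwa [sub_sub_cancel] at this
  have e : Ideal.span {w} ⊔ Ideal.span {l} = RingHom.ker (ψ.comp φ) := by
    refine le_antisymm (sup_le ((Ideal.span_singleton_le_iff_mem _).2 ?_)
      ((Ideal.span_singleton_le_iff_mem _).2 ?_)) fun f hf ↦ ?_
    · rw [RingHom.mem_ker, AlgHom.comp_apply, a1, map_zero]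
    · rw [RingHom.mem_ker, AlgHom.comp_apply, b1]
    · rw [RingHom.mem_ker, AlgHom.comp_apply] at hf
      have h1 := (Ideal.span_singleton_le_iff_mem _).2 m (b2 (φ f))
      rw [hf, sub_zero] at h1
      have h2 := Ideal.add_mem _ (Ideal.mem_sup_left (a2 f)) h1
      rwa [sub_add_cancel] at h2
  rw [e]
  exact RingHom.ker_isPrime _

/-- Hilbert functions in two variables do not increase once they are not maximal -/
theorem mac [Infinite k] {K : Ideal (S k)} (hK : IsHom K) {w l : S k} (hw : w.IsHomogeneous 1)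
    (hw0 : w ≠ 0) (hl : l.IsHomogeneous 1) (hlw : l ∉ Ideal.span {w})
    (hle : Ideal.span {w} ⊔ Ideal.span {l} ≤ K) {g : ℕ} (hg : hilb K g ≤ g) (n : ℕ) :
    hilb K (g + n) ≤ hilb K g := by
  have hp := line_prime hw hw0 hl hlw
  have hh := (isHom_span1 hw).sup (isHom_span1 hl)
  have hL (n : ℕ) : hilb (Ideal.span {w} ⊔ Ideal.span {l}) n = n + 1 := by
    have h1 := hil_pair hw hw0 hl hlw n
    have h2 := hil_step (n + 1)
    rw [show n + 2 - 1 = n + 1 by omega] at h1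
    rw [show n + 1 + 1 = n + 2 by omega] at h2
    omega
  have lt : Ideal.span {w} < Ideal.span {w} ⊔ Ideal.span {l} :=
    lt_of_le_of_ne le_sup_left fun e ↦ hlw (e ▸ mem_sup_span_self _ _)
  generalize Ideal.span {w} ⊔ Ideal.span {l} = L at hle hp hh hL lt
  obtain ⟨F, hF, m, o⟩ : ∃ F : S k, F.IsHomogeneous g ∧ F ∈ K ∧ F ∉ L := by
    by_contra! hc
    have := hilb_congr (I := K) (J := L) fun f hf ↦ ⟨hc f hf, fun h ↦ hle h⟩
    rw [hL] at this
    omega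
  have c3 : ¬ Ch3 L := fun ⟨A, B, C, D, hA, hB, hC, hD, h0, h1, h2, h3⟩ ↦
    not_chain5 ((Ideal.span_singleton_prime hw0).2 (hil_prime hw hw0)) hA hB hC hD
      (bot_lt_iff_ne_bot.2 fun e ↦ hw0 (Ideal.span_singleton_eq_bot.1 e)) (lt.trans_le h0) h1 h2 h3
  obtain ⟨u, hu, av⟩ := hil_exists_lin ((mp_fin (L ⊔ Ideal.span {F})).insert L) (by
    rintro Q (rfl | hQ)
    · by_contra! hc
      have := hilb_eq_zero_iff.2 fun f (hf : f.IsHomogeneous 1) ↦
        mm_le hc (hom_mem_mm hf one_ne_zero)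
      rw [hL] at this
      omega
    · exact hQ.2)
  have uL : u ∉ L := av L (Set.mem_insert _ _)
  have u0 : u ≠ 0 := fun e ↦ uL (e ▸ L.zero_mem)
  have pr := prim_of_avoid hp hh c3 hF hu o fun Q a b ↦ av Q (Set.mem_insert_of_mem _ ⟨a, b⟩)
  have hM (n : ℕ) : hilb (L ⊔ Ideal.span {u}) n = 1 := by
    rcases n with _ | n
    · rw [← hilb_zero_sup hh hu, hL]
    · have := hilb_succ hh hu u0 n
      rw [col_eq fun f hf ↦ (hp.mem_or_mem hf).resolve_left uL, hL, hL] at this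
      omega
  have oF : F ∉ L ⊔ Ideal.span {u} := fun h ↦ by
    obtain ⟨N, hN⟩ := (pr.mono (sup_le (sup_le le_sup_left
      ((Ideal.span_singleton_le_iff_mem _).2 h)) le_sup_right)).deg
    have := hilb_eq_zero_iff.2 (hN N le_rfl)
    rw [hM] at this
    omega
  have z (n : ℕ) : hilb (K ⊔ Ideal.span {u}) (g + n) = 0 := by
    induction n with
    | zero =>
      have := hilb_lt (sup_le_sup_right hle _) hF (Ideal.mem_sup_left m) oF
      rw [hM] at this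
      exact Nat.lt_one_iff.1 this
    | succ n ih => exact hil_zero_succ ih
  induction n with
  | zero => exact le_rfl
  | succ n ih =>
    have h1 := hilb_succ hK hu u0 (g + n)
    have h2 := hilb_anti (le_col K u) (g + n)
    have h3 := z (n + 1)
    rw [← add_assoc] at h3 ⊢
    omega

theorem sup_low {A B : Ideal (S k)} (hA : IsHom A) {c f : S k} {d n : ℕ} (hc : c.IsHomogeneous d)
    (h : ∀ f : S k, f.IsHomogeneous n → f ∈ A → f ∈ B) (hf : f.IsHomogeneous n)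
    (m : f ∈ A ⊔ Ideal.span {c}) : f ∈ B ⊔ Ideal.span {c} := by
  obtain ⟨a, ha, b, hb, e⟩ := Submodule.mem_sup.1 m
  rw [← comp_self hf, ← e, map_add]
  exact Ideal.add_mem _
    (Ideal.mem_sup_left (h _ (homogeneousComponent_isHomogeneous n a) (hA a ha n)))
    (Ideal.mem_sup_right (isHom_span1 hc b hb n))

theorem qne_slow [Infinite k] {P₁ P₂ : Ideal (S k)} (h₁ : IsIntACM P₁) (h₂ : IsIntACM P₂)
    {f g e : ℕ} (s₂ : hvec P₂ f ≤ f) (hfg : f ≤ g)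
    (hlow : ∀ F : S k, F.IsHomogeneous g → F ∈ P₂ → F ∈ P₁)
    (h : ∑ i ∈ Finset.range e, (hvec P₂ g - hvec P₂ (g + 1 + i)) <
      ∑ n ∈ Finset.range (g + e + 1), hvec P₁ n) : Qne P₁ P₂ (g + e) := by
  intro w hw w1 w2 h0
  have hw0 : w ≠ 0 := fun e ↦ w1 (e ▸ P₁.zero_mem)
  have i₁ := h₁.2.hom.sup (isHom_span1 hw)
  have i₂ := h₂.2.hom.sup (isHom_span1 hw)
  obtain ⟨𝒬, q1, q2, q3⟩ := (h₂.sat w2).exists_primes
  obtain ⟨l, hl, av⟩ := hil_exists_lin q1 fun Q hQ ↦ (q2 Q hQ).2.2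
  have reg := q3 l av
  have hlw : l ∉ Ideal.span {w} := fun m ↦ by
    have hle : P₂ ⊔ Ideal.span {w} ≤ mm k := sup_le (h₂.2.hom.le_mm h₂.1.ne_top)
      ((Ideal.span_singleton_le_iff_mem _).2 (hom_mem_mm hw one_ne_zero))
    exact mm_prime.ne_top ((Ideal.eq_top_iff_one _).2
      (hle (reg 1 (by rw [mul_one]; exact Ideal.mem_sup_right m))))
  have l0 : l ≠ 0 := fun e ↦ hlw (e ▸ Ideal.zero_mem _)
  have hv := hvec_eq h₂.2.hom hw hl hw0 l0 (fun f hf ↦ (h₂.1.mem_or_mem hf).resolve_left w2) reg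
  have e1 := hil_sup_inf i₁ i₂ (g + e)
  rw [← sup_sup_distrib_right, h0] at e1
  have e2 := hil_sum h₁ hw w1 (g + e)
  have e3 := hil_sum h₂ hw w2 (g + e)
  have e4 := hil_sum h₂ hw w2 g
  rw [show g + e + 1 = g + 1 + e by omega, Finset.sum_range_add, e4] at e3
  have hJ := i₁.inf i₂
  have low : ∀ F : S k, F.IsHomogeneous g → F ∈ P₂ ⊔ Ideal.span {w} →
      F ∈ (P₁ ⊔ Ideal.span {w}) ⊓ (P₂ ⊔ Ideal.span {w}) :=
    fun F hF m ↦ ⟨sup_low h₂.2.hom hw hlow hF m, m⟩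
  have wJ : Ideal.span {w} ≤ (P₁ ⊔ Ideal.span {w}) ⊓ (P₂ ⊔ Ideal.span {w}) :=
    le_inf le_sup_right le_sup_right
  have Jle : (P₁ ⊔ Ideal.span {w}) ⊓ (P₂ ⊔ Ideal.span {w}) ≤ P₂ ⊔ Ideal.span {w} := inf_le_right
  generalize (P₁ ⊔ Ideal.span {w}) ⊓ (P₂ ⊔ Ideal.span {w}) = J at e1 hJ low wJ Jle
  have e5 : hilb J g = hilb (P₂ ⊔ Ideal.span {w}) g :=
    hilb_congr fun F hF ↦ ⟨fun m ↦ Jle m, low F hF⟩
  have e6 : hilb (J ⊔ Ideal.span {l}) g = hilb ((P₂ ⊔ Ideal.span {w}) ⊔ Ideal.span {l}) g :=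
    hilb_congr fun F hF ↦ ⟨fun m ↦ sup_le_sup_right Jle _ m, sup_low i₂ hl low hF⟩
  have e7 : hilb (J ⊔ Ideal.span {l}) g ≤ g := by
    have a := mac (i₂.sup (isHom_span1 hl)) hw hw0 hl hlw (sup_le_sup_right le_sup_right _)
      (g := f) (by rw [hv] at s₂; exact_mod_cast s₂) (g - f)
    rw [show f + (g - f) = g by omega] at a
    rw [hv] at s₂
    omega
  have e8 (n : ℕ) : hilb J (g + n) ≤ hilb J g + n * hilb (J ⊔ Ideal.span {l}) g := by
    induction n with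
    | zero => simp
    | succ n ih =>
      have a := hilb_succ hJ hl l0 (g + n)
      have b := hilb_anti (le_col J l) (g + n)
      have c := mac (hJ.sup (isHom_span1 hl)) hw hw0 hl hlw (sup_le_sup_right wJ _) e7 (n + 1)
      rw [← add_assoc] at c ⊢
      rw [add_mul, one_mul]
      omega
  have e9 := e8 e
  rw [Finset.sum_sub_distrib, Finset.sum_const, Finset.card_range, nsmul_eq_mul, e2, hv g,
    ← e6] at h
  have : ((hilb J (g + e) : ℕ) : ℤ) ≤ hilb J g + e * hilb (J ⊔ Ideal.span {l}) g := by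
    exact_mod_cast e9
  omega

theorem numeric2 [IsAlgClosed k] {P₁ P₂ : Ideal (S k)} (h₁ : IsIntACM P₁) (h₂ : IsIntACM P₂)
    (hne : P₁ ≠ P₂) (hR : Realizes P₁ P₂) {f₁ f₂ n₁ n₂ j e : ℕ} (s₁ : hvec P₁ f₁ ≤ f₁)
    (s₂ : hvec P₂ f₂ ≤ f₂) (hn₁ : hvec P₁ n₁ ≠ 0) (hn₂ : hvec P₂ n₂ ≠ 0)
    (hf : f₁ ≤ min n₁ n₂ + 1) (hj : f₁ + f₂ ≤ j + 2) (hQ : Qne P₁ P₂ j) (he : f₁ ≤ e + 1)
    (hg : min n₁ n₂ + 1 < f₂ → ∀ g, f₂ ≤ g →
      ∑ i ∈ Finset.range e, (hvec P₂ g - hvec P₂ (g + 1 + i)) <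
        ∑ n ∈ Finset.range (g + e + 1), hvec P₁ n) : IsACM (P₁ ⊓ P₂) := by
  classical
  by_cases z : f₂ ≤ min n₁ n₂ + 1
  · exact numeric h₁ h₂ hne hR s₁ s₂ hn₁ hn₂ (by omega) hj hQ
  obtain ⟨F₁, hF₁, z₁, m₁⟩ := exists_form s₁
  by_cases o₂ : F₁ ∈ P₂
  · exact main h₁ h₂ hne hR hF₁ z₁ m₁ o₂ hn₁ hn₂ (by omega) (by omega)
  have ex : ∃ d, ∃ G : S k, G.IsHomogeneous d ∧ G ∈ P₂ ∧ G ∉ P₁ :=
    (not_le_of_ne h₁ h₂ hne).elim fun G ⟨d, h⟩ ↦ ⟨d, G, h⟩
  obtain ⟨F₂, hF₂, m₂, o₁⟩ := Nat.find_spec ex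
  by_cases c : Nat.find ex ≤ f₂
  · exact joint h₁ h₂ hR hF₁ hF₂ m₁ m₂ o₁ o₂ (by omega) hQ
  obtain ⟨g, hd⟩ : ∃ g, Nat.find ex = g + 1 := ⟨Nat.find ex - 1, by omega⟩
  exact joint h₁ h₂ hR hF₁ hF₂ m₁ m₂ o₁ o₂ (j := g + e) (by omega)
    (qne_slow h₁ h₂ s₂ (by omega) (fun F hF m ↦ by_contra fun o ↦
      Nat.find_min ex (m := g) (by omega) ⟨F, hF, m, o⟩) (hg (by omega) g (by omega)))

end Pool.Agent.Lib.JC99
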